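import Pool.Agent.Helper31.DG.DV

/-!
# DIAG part D, D-03: chain rule, words along a step, residues of the position

`word X c a L x = (c x, c (T^a x), ..., c (T^(a(L-1)) x))`, `res pos M x` = the residue of `pos x` modulo `M`.
`word_step`: `H(word of length m L) ≤ log M + m (H(word of length L, residue) - log M)`.
-/

set_option autoImplicit false

namespace DGE

open Finset DG

theorem chain {S : Type} (μ : Mean S) {α β : Type} [Fintype α] [Fintype β] [DecidableEq α]
    [DecidableEq β] [Nonempty α] [Nonempty β] (f : ℕ → S → α) (y : S → β) (k : ℕ) :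
    ent μ (fun x => ((fun i : Fin k => f (i : ℕ) x), y x)) ≤
      ent μ y + ∑ i ∈ range k, (ent μ (fun x => (f i x, y x)) - ent μ y) := by
  induction k with
  | zero =>
    rw [Finset.sum_range_zero, add_zero]
    refine ent_factor μ _ y ?_
    intro n m h
    exact Prod.ext (funext fun i => i.elim0) h
  | succ k ih =>
    rw [Finset.sum_range_succ]
    have h1 : ent μ (fun x => ((fun i : Fin (k + 1) => f (i : ℕ) x), y x)) ≤
        ent μ (fun x => ((fun i : Fin k => f (i : ℕ) x), f k x, y x)) := by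
      refine ent_factor μ _ _ ?_
      intro n m h
      have ha := congrArg Prod.fst h
      have hb := congrArg (fun z => z.2.1) h
      have hc := congrArg (fun z => z.2.2) h
      simp only at ha hb hc
      refine Prod.ext (funext fun i => ?_) hc
      by_cases hi : (i : ℕ) < k
      · exact congrFun ha ⟨i, hi⟩
      · have : (i : ℕ) = k := by
          have := i.2
          omega
        simp only [this]
        exact hb
    have h2 := submod μ (fun x => (fun i : Fin k => f (i : ℕ) x)) (f k) y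
    linarith

/-- The word of length `L` at `x` along the step `a`. -/
def word (X : Sys) {A : Type} (c : X.S → A) (a L : ℕ) (x : X.S) : Fin L → A :=
  fun j => c ((X.T ^ ((a : ℤ) * ((j : ℕ) : ℤ))) x)

/-- The residue of the position modulo `M`. -/
def res {S : Type} (pos : S → ℤ) (M : ℕ) [NeZero M] (x : S) : Fin M :=
  ⟨(pos x % (M : ℤ)).toNat, by
    have h0 : (0 : ℤ) < M := by exact_mod_cast NeZero.pos M
    have h1 := Int.emod_lt_of_pos (pos x) h0
    have h2 := Int.emod_nonneg (pos x) h0.ne'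
    omega⟩

theorem pos_zpow (X : Sys) (pos : X.S → ℤ) (hpos : ∀ x, pos (X.T x) = pos x + 1) (n : ℤ)
    (x : X.S) : pos ((X.T ^ n) x) = pos x + n := by
  have hnat : ∀ (n : ℕ) (x : X.S), pos ((X.T ^ n) x) = pos x + n := by
    intro n
    induction n with
    | zero => intro x; simp
    | succ n ih =>
      intro x
      have h1 : (X.T ^ (n + 1)) x = (X.T ^ n) (X.T x) := rfl
      rw [h1, ih, hpos]
      push_cast
      ring
  rcases Int.eq_nat_or_neg n with ⟨m, rfl | rfl⟩
  · rw [zpow_natCast]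
    exact hnat m x
  · have h1 := hnat m ((X.T ^ (-(m : ℤ))) x)
    have h2 : (X.T ^ m) ((X.T ^ (-(m : ℤ))) x) = x := by
      rw [zpow_neg, zpow_natCast, Equiv.Perm.inv_def, Equiv.apply_symm_apply]
    rw [h2] at h1
    omega

theorem res_shift (X : Sys) (pos : X.S → ℤ) (hpos : ∀ x, pos (X.T x) = pos x + 1) (M : ℕ)
    [NeZero M] (n : ℤ) (x x' : X.S)
    (h : res pos M ((X.T ^ n) x) = res pos M ((X.T ^ n) x')) : res pos M x = res pos M x' := by
  have h0 : (0 : ℤ) < M := by exact_mod_cast NeZero.pos M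
  have h1 := congrArg Fin.val h
  simp only [res, pos_zpow X pos hpos] at h1
  have e1 := Int.emod_nonneg (pos x + n) h0.ne'
  have e2 := Int.emod_nonneg (pos x' + n) h0.ne'
  have h2 : (pos x + n) % (M : ℤ) = (pos x' + n) % (M : ℤ) := by omega
  have h3 : pos x % (M : ℤ) = pos x' % (M : ℤ) := by
    have h4 : pos x + n ≡ pos x' + n [ZMOD (M : ℤ)] := h2
    exact Int.ModEq.add_right_cancel' n h4
  refine Fin.ext ?_
  simp only [res]
  rw [h3]

theorem res_dvd {S : Type} (pos : S → ℤ) (M : ℕ) [NeZero M] {p : ℕ} (hp : p ∣ M) (x : S) (n : ℕ) :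
    ((p : ℤ) ∣ pos x + n) ↔ p ∣ (res pos M x : ℕ) + n := by
  have h0 : (0 : ℤ) < M := by exact_mod_cast NeZero.pos M
  have h2 := Int.emod_nonneg (pos x) h0.ne'
  have h1 : ((res pos M x : ℕ) : ℤ) = pos x % (M : ℤ) := by
    simp only [res]
    omega
  have h3 : (p : ℤ) ∣ pos x - (res pos M x : ℕ) := by
    rw [h1]
    have h4 : (M : ℤ) ∣ pos x - pos x % (M : ℤ) := Int.dvd_self_sub_emod
    exact (Int.natCast_dvd_natCast.2 hp).trans h4
  rw [← Int.natCast_dvd_natCast]
  push_cast
  have h5 : pos x + (n : ℤ) = (pos x - (res pos M x : ℕ)) + ((res pos M x : ℕ) + (n : ℤ)) := by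
    ring
  rw [h5]
  exact (Int.dvd_add_right h3)

/-- The residue is exactly uniform. -/
theorem law_res (X : Sys) (pos : X.S → ℤ) (hpos : ∀ x, pos (X.T x) = pos x + 1) (M : ℕ)
    [NeZero M] (b : Fin M) : law X.μ (res pos M) b = 1 / M := by
  have h0 : (0 : ℤ) < M := by exact_mod_cast NeZero.pos M
  have key : ∀ b : Fin M, law X.μ (res pos M) b = law X.μ (res pos M) 0 := by
    intro b
    rw [← law_shift X (res pos M) b ((b : ℕ) : ℤ)]
    refine law_congr X.μ _ _ _ _ fun x => ?_
    have e2 := Int.emod_nonneg (pos x) h0.ne'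
    have e1 := Int.emod_nonneg (pos x + ((b : ℕ) : ℤ)) h0.ne'
    have hb : ((b : ℕ) : ℤ) % (M : ℤ) = (b : ℕ) :=
      Int.emod_eq_of_lt (by positivity) (by exact_mod_cast b.2)
    have h1 : (res pos M ((X.T ^ ((b : ℕ) : ℤ)) x) = b) ↔
        (pos x + ((b : ℕ) : ℤ)) % (M : ℤ) = ((b : ℕ) : ℤ) % (M : ℤ) := by
      rw [hb, Fin.ext_iff]
      simp only [res, pos_zpow X pos hpos]
      omega
    have h2 : (res pos M x = 0) ↔ pos x % (M : ℤ) = 0 % (M : ℤ) := by
      rw [Fin.ext_iff]
      simp only [res, Int.zero_emod, Fin.val_zero]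
      omega
    rw [h1, h2]
    constructor
    · intro h
      have h4 : pos x + ((b : ℕ) : ℤ) ≡ 0 + ((b : ℕ) : ℤ) [ZMOD (M : ℤ)] := by
        rw [zero_add]
        exact h
      exact Int.ModEq.add_right_cancel' _ h4
    · intro h
      have h4 : pos x ≡ 0 [ZMOD (M : ℤ)] := h
      have h5 := h4.add_right ((b : ℕ) : ℤ)
      rw [zero_add] at h5
      exact h5
  have hs := law_sum X.μ (res pos M)
  rw [Finset.sum_congr rfl fun b _ => key b, Finset.sum_const, Finset.card_univ,
    Fintype.card_fin, nsmul_eq_mul] at hs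
  have hM : (M : ℝ) ≠ 0 := by exact_mod_cast (NeZero.ne M)
  rw [key b, eq_div_iff hM, mul_comm]
  exact hs

theorem ent_res (X : Sys) (pos : X.S → ℤ) (hpos : ∀ x, pos (X.T x) = pos x + 1) (M : ℕ)
    [NeZero M] : ent X.μ (res pos M) = Real.log M := by
  unfold ent
  have hM : (M : ℝ) ≠ 0 := by exact_mod_cast (NeZero.ne M)
  rw [Finset.sum_congr rfl fun b _ => by rw [law_res X pos hpos M b], Finset.sum_const,
    Finset.card_univ, Fintype.card_fin, nsmul_eq_mul, Real.negMulLog, one_div, Real.log_inv]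
  field_simp

theorem word_chain (X : Sys) {A β : Type} [Fintype A] [DecidableEq A] [Nonempty A] [Fintype β]
    [DecidableEq β] [Nonempty β] (c : X.S → A) (y : X.S → β) (a m L : ℕ)
    (hy : ∀ (n : ℤ) (x x' : X.S), y ((X.T ^ n) x) = y ((X.T ^ n) x') → y x = y x') :
    ent X.μ (word X c a (m * L)) ≤
      ent X.μ y + m * (ent X.μ (fun x => (word X c a L x, y x)) - ent X.μ y) := by
  have h1 : ent X.μ (word X c a (m * L)) ≤
      ent X.μ (fun x => ((fun i : Fin m =>
        word X c a L ((X.T ^ ((a : ℤ) * (((i : ℕ) : ℤ) * L))) x)), y x)) := by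
    refine ent_factor X.μ _ _ ?_
    intro x x' h
    have ha := congrArg Prod.fst h
    simp only at ha
    funext j
    have hj := j.2
    have hL : 0 < L := by
      rcases Nat.eq_zero_or_pos L with h0 | h0
      · have : m * L = 0 := by rw [h0, Nat.mul_zero]
        omega
      · exact h0
    have hi : (j : ℕ) / L < m := Nat.div_lt_of_lt_mul (lt_of_lt_of_eq hj (Nat.mul_comm m L))
    have hr : (j : ℕ) % L < L := Nat.mod_lt _ hL
    have h1 := congrFun (congrFun ha ⟨(j : ℕ) / L, hi⟩) ⟨(j : ℕ) % L, hr⟩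
    simp only [word] at h1 ⊢
    have h2 : ∀ z : X.S, (X.T ^ ((a : ℤ) * (((j : ℕ) % L : ℕ) : ℤ)))
        ((X.T ^ ((a : ℤ) * ((((j : ℕ) / L : ℕ) : ℤ) * L))) z) =
        (X.T ^ ((a : ℤ) * ((j : ℕ) : ℤ))) z := by
      intro z
      rw [← Equiv.Perm.mul_apply, ← zpow_add]
      congr 2
      have h3 := Nat.div_add_mod' (j : ℕ) L
      have h4 : (((j : ℕ) / L : ℕ) : ℤ) * L + (((j : ℕ) % L : ℕ) : ℤ) = ((j : ℕ) : ℤ) := by
        exact_mod_cast h3
      rw [← mul_add, add_comm, h4]
    rw [h2, h2] at h1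
    exact h1
  have h2 := chain X.μ (fun i x => word X c a L ((X.T ^ ((a : ℤ) * ((i : ℤ) * L))) x)) y m
  have h3 : ∀ i ∈ range m,
      ent X.μ (fun x => (word X c a L ((X.T ^ ((a : ℤ) * ((i : ℤ) * L))) x), y x)) - ent X.μ y ≤
        ent X.μ (fun x => (word X c a L x, y x)) - ent X.μ y := by
    intro i _
    have h4 : ent X.μ (fun x => (word X c a L ((X.T ^ ((a : ℤ) * ((i : ℤ) * L))) x), y x)) ≤
        ent X.μ (fun x => (word X c a L ((X.T ^ ((a : ℤ) * ((i : ℤ) * L))) x),
          y ((X.T ^ ((a : ℤ) * ((i : ℤ) * L))) x))) := by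
      refine ent_factor X.μ _ _ ?_
      intro x x' h
      have h5 := congrArg Prod.fst h
      have h6 := congrArg Prod.snd h
      simp only at h5 h6
      exact Prod.ext h5 (hy _ _ _ h6)
    rw [ent_shift X (fun x => (word X c a L x, y x))] at h4
    linarith
  have h4 := Finset.sum_le_sum h3
  rw [Finset.sum_const, card_range, nsmul_eq_mul] at h4
  linarith

/-- the main inequality of the decrement -/
theorem word_step (X : Sys) (pos : X.S → ℤ) (hpos : ∀ x, pos (X.T x) = pos x + 1) {A : Type}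
    [Fintype A] [DecidableEq A] [Nonempty A] (c : X.S → A) (a m L M : ℕ) [NeZero M] :
    ent X.μ (word X c a (m * L)) ≤
      Real.log M + m * (ent X.μ (fun x => (word X c a L x, res pos M x)) - Real.log M) := by
  have h := word_chain X c (res pos M) a m L (fun n x x' => res_shift X pos hpos M n x x')
  rw [ent_res X pos hpos M] at h
  exact h

/-- subadditivity -/
theorem word_sub (X : Sys) {A : Type} [Fintype A] [DecidableEq A] [Nonempty A] (c : X.S → A)
    (a m L : ℕ) : ent X.μ (word X c a (m * L)) ≤ m * ent X.μ (word X c a L) := by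
  have h := word_chain X c (fun _ => ()) a m L (fun _ _ _ _ => rfl)
  have h0 : ent X.μ (fun _ : X.S => ()) = 0 := by
    refine le_antisymm ?_ (ent_nonneg _ _)
    refine (ent_le_card X.μ _).trans ?_
    simp
  have h1 : ent X.μ (fun x => (word X c a L x, ())) ≤ ent X.μ (word X c a L) :=
    ent_factor X.μ _ _ fun x x' h => Prod.ext h rfl
  rw [h0] at h
  have h2 : (m : ℝ) * (ent X.μ (fun x => (word X c a L x, ())) - 0) ≤
      m * ent X.μ (word X c a L) :=
    mul_le_mul_of_nonneg_left (by linarith) (Nat.cast_nonneg m)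
  linarith

theorem ent_word_le (X : Sys) {A : Type} [Fintype A] [DecidableEq A] [Nonempty A] (c : X.S → A)
    (a L : ℕ) : ent X.μ (word X c a L) ≤ L * Real.log (Fintype.card A) := by
  refine (ent_le_card X.μ _).trans (le_of_eq ?_)
  rw [Fintype.card_fun, Fintype.card_fin]
  push_cast
  rw [Real.log_pow]

end DGE
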