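import Pool.Agent.Helper31.DG.Law

/-!
# DIAG part D, D-02: the Gibbs variational principle with a uniform reference, and submodularity

Same proofs as `Helper11/MRU/DV.lean`, `Helper11/MRU/Submod.lean` (there for the uniform weights on `[1, X]`).
-/

set_option autoImplicit false

namespace DGE

open Finset DG

variable {S : Type} (μ : Mean S)

theorem dv {α β : Type} [Fintype α] [DecidableEq α] [Fintype β] [DecidableEq β] [Nonempty β]
    (v : S → α) (y : S → β) (F : α → β → ℝ) (Z : ℝ) (hZ : 0 < Z)
    (hF : ∀ a, ∑ b : β, Real.exp (F a b) ≤ Z * (Fintype.card β : ℝ)) :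
    μ.R (fun x => F (v x) (y x)) ≤
      ent μ v + Real.log (Fintype.card β) - ent μ (fun x => (v x, y x)) + Real.log Z := by
  classical
  have hcard : (0 : ℝ) < (Fintype.card β : ℝ) := by exact_mod_cast Fintype.card_pos
  have hZc : 0 < Z * (Fintype.card β : ℝ) := mul_pos hZ hcard
  set p : α × β → ℝ := fun i => law μ (fun x => (v x, y x)) i with hp
  set q : α × β → ℝ := fun i => law μ v i.1 * Real.exp (F i.1 i.2) / (Z * (Fintype.card β : ℝ))
    with hq
  have hp0 : ∀ i, 0 ≤ p i := fun i => law_nonneg μ _ i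
  have hv0 : ∀ a, 0 ≤ law μ v a := fun a => law_nonneg μ v a
  have hq0 : ∀ i, 0 ≤ q i := fun i =>
    div_nonneg (mul_nonneg (hv0 _) (Real.exp_pos _).le) hZc.le
  have hpv : ∀ i : α × β, p i ≤ law μ v i.1 := by
    intro i
    have h1 : ∑ b : β, law μ (fun x => (v x, y x)) (i.1, b) = law μ v i.1 := law_fst μ v y i.1
    rw [← h1]
    exact Finset.single_le_sum (f := fun b => law μ (fun x => (v x, y x)) (i.1, b))
      (fun b _ => law_nonneg μ _ _) (Finset.mem_univ i.2)
  have hpq : ∀ i, q i = 0 → p i = 0 := by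
    intro i hi
    rcases div_eq_zero_iff.1 hi with h | h
    · rcases mul_eq_zero.1 h with h | h
      · exact le_antisymm (h ▸ hpv i) (hp0 i)
      · exact absurd h (Real.exp_pos _).ne'
    · exact absurd h hZc.ne'
  have hsum : ∑ i, q i ≤ ∑ i, p i := by
    have h1 : ∑ i, p i = 1 := law_sum μ _
    rw [h1, Fintype.sum_prod_type]
    have h2 : ∀ a : α, ∑ b : β, q (a, b) ≤ law μ v a := by
      intro a
      have h3 : ∑ b : β, q (a, b) =
          law μ v a * (∑ b : β, Real.exp (F a b)) / (Z * (Fintype.card β : ℝ)) := by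
        rw [Finset.mul_sum, Finset.sum_div]
      rw [h3, div_le_iff₀ hZc]
      exact mul_le_mul_of_nonneg_left (hF a) (hv0 a)
    calc ∑ a : α, ∑ b : β, q (a, b) ≤ ∑ a : α, law μ v a := Finset.sum_le_sum fun a _ => h2 a
      _ = 1 := law_sum μ v
  have hG := MRA.gibbs p q hp0 hq0 hpq hsum
  have hterm : ∀ i : α × β, p i * Real.log (q i) =
      p i * (Real.log (law μ v i.1) + F i.1 i.2 - (Real.log Z + Real.log (Fintype.card β))) := by
    intro i
    by_cases h0 : p i = 0
    · rw [h0]; ring
    · have h1 : 0 < p i := lt_of_le_of_ne (hp0 i) (Ne.symm h0)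
      have h2 : 0 < law μ v i.1 := lt_of_lt_of_le h1 (hpv i)
      have h3 : Real.log (q i) =
          Real.log (law μ v i.1) + F i.1 i.2 - (Real.log Z + Real.log (Fintype.card β)) := by
        simp only [hq]
        rw [Real.log_div (mul_pos h2 (Real.exp_pos _)).ne' hZc.ne',
          Real.log_mul h2.ne' (Real.exp_pos _).ne', Real.log_exp, Real.log_mul hZ.ne' hcard.ne']
      rw [h3]
  have e1 : μ.R (fun x => F (v x) (y x)) = ∑ i : α × β, p i * F i.1 i.2 :=
    R_eq μ (fun x => (v x, y x)) (fun i : α × β => F i.1 i.2)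
  have e2 : ∑ i : α × β, p i * Real.log (law μ v i.1) = - ent μ v := by
    have h1 : μ.R (fun x => Real.log (law μ v (v x))) =
        ∑ i : α × β, p i * Real.log (law μ v i.1) :=
      R_eq μ (fun x => (v x, y x)) (fun i : α × β => Real.log (law μ v i.1))
    have h2 : μ.R (fun x => Real.log (law μ v (v x))) =
        ∑ a : α, law μ v a * Real.log (law μ v a) :=
      R_eq μ v (fun a => Real.log (law μ v a))
    rw [← h1, h2]
    unfold ent
    rw [← Finset.sum_neg_distrib]
    refine Finset.sum_congr rfl fun a _ => ?_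
    rw [Real.negMulLog]
    ring
  have e3 : ∑ i : α × β, p i * (Real.log Z + Real.log (Fintype.card β)) =
      Real.log Z + Real.log (Fintype.card β) := by
    rw [← Finset.sum_mul]
    have h1 : ∑ i, p i = 1 := law_sum μ _
    rw [h1, one_mul]
  have e4 : ∑ i, p i * Real.log (q i) =
      - ent μ v + μ.R (fun x => F (v x) (y x)) - (Real.log Z + Real.log (Fintype.card β)) := by
    rw [Finset.sum_congr rfl fun i _ => hterm i]
    simp only [mul_sub, mul_add]
    rw [Finset.sum_sub_distrib, Finset.sum_add_distrib, e2, ← e1]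
    have e5 : ∑ i : α × β, (p i * Real.log Z + p i * Real.log (Fintype.card β)) =
        Real.log Z + Real.log (Fintype.card β) := by
      rw [← e3]
      exact Finset.sum_congr rfl fun i _ => by ring
    rw [e5]
  rw [e4] at hG
  have e6 : ent μ (fun x => (v x, y x)) = ∑ i, Real.negMulLog (p i) := rfl
  rw [← e6] at hG
  linarith

private theorem submod_aux {ι κ : Type} [Fintype ι] [DecidableEq ι] [Fintype κ] [DecidableEq κ]
    (F : S → ι) (G : S → κ) (r : ι → κ) (h : ∀ x, G x = r (F x)) (φ : κ → ℝ) :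
    ∑ i, law μ F i * φ (r i) = ∑ j, law μ G j * φ j := by
  rw [← R_eq μ F (fun i => φ (r i)), ← R_eq μ G φ]
  congr 1
  funext x
  rw [h x]

private theorem submod_ent {ι κ : Type} [Fintype ι] [DecidableEq ι] [Fintype κ] [DecidableEq κ]
    (F : S → ι) (G : S → κ) (r : ι → κ) (h : ∀ x, G x = r (F x)) :
    ∑ i, law μ F i * Real.log (law μ G (r i)) = - ent μ G := by
  rw [submod_aux μ F G r h (fun j => Real.log (law μ G j))]
  unfold ent
  rw [← Finset.sum_neg_distrib]
  refine Finset.sum_congr rfl fun j _ => ?_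
  rw [Real.negMulLog]
  ring

theorem submod {α β γ : Type} [Fintype α] [Fintype β] [Fintype γ] [DecidableEq α] [DecidableEq β]
    [DecidableEq γ] (f : S → α) (g : S → β) (y : S → γ) :
    ent μ (fun x => (f x, g x, y x)) + ent μ y ≤
      ent μ (fun x => (f x, y x)) + ent μ (fun x => (g x, y x)) := by
  classical
  set F : S → α × β × γ := fun x => (f x, g x, y x) with hF
  set A : α × β × γ → ℝ := fun i => law μ (fun x => (f x, y x)) (i.1, i.2.2) with hA
  set B : α × β × γ → ℝ := fun i => law μ (fun x => (g x, y x)) (i.2.1, i.2.2) with hB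
  set C : α × β × γ → ℝ := fun i => law μ y i.2.2 with hC
  have hA0 : ∀ i, 0 ≤ A i := fun i => law_nonneg μ _ _
  have hB0 : ∀ i, 0 ≤ B i := fun i => law_nonneg μ _ _
  have hC0 : ∀ i, 0 ≤ C i := fun i => law_nonneg μ _ _
  have hpA : ∀ i, law μ F i ≤ A i := by
    intro i
    refine law_mono μ _ _ _ _ ?_
    intro n hn
    rw [← hn]
  have hpB : ∀ i, law μ F i ≤ B i := by
    intro i
    refine law_mono μ _ _ _ _ ?_
    intro n hn
    rw [← hn]
  have hpC : ∀ i, law μ F i ≤ C i := by
    intro i
    refine law_mono μ _ _ _ _ ?_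
    intro n hn
    rw [← hn]
  have hq : ∀ i, 0 ≤ A i * B i / C i := fun i => div_nonneg (mul_nonneg (hA0 i) (hB0 i)) (hC0 i)
  have hpq : ∀ i, A i * B i / C i = 0 → law μ F i = 0 := by
    intro i hi
    have h0 := law_nonneg μ F i
    rcases div_eq_zero_iff.1 hi with h | h
    · rcases mul_eq_zero.1 h with h | h
      · exact le_antisymm (h ▸ hpA i) h0
      · exact le_antisymm (h ▸ hpB i) h0
    · exact le_antisymm (h ▸ hpC i) h0
  have hsum : ∑ i, A i * B i / C i = ∑ i, law μ F i := by
    rw [law_sum μ F]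
    rw [Fintype.sum_prod_type]
    simp only [Fintype.sum_prod_type]
    rw [Finset.sum_comm]
    have h1 : ∀ b : β, ∀ a : α, ∑ c : γ, A (a, b, c) * B (a, b, c) / C (a, b, c) =
        ∑ c : γ, law μ (fun n => (f n, y n)) (a, c) * law μ (fun n => (g n, y n)) (b, c) /
          law μ y c := fun b a => rfl
    simp only [h1]
    have h2 : ∀ b : β, ∑ a : α, ∑ c : γ, law μ (fun n => (f n, y n)) (a, c) *
        law μ (fun n => (g n, y n)) (b, c) / law μ y c =
        ∑ c : γ, law μ (fun n => (g n, y n)) (b, c) := by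
      intro b
      rw [Finset.sum_comm]
      refine Finset.sum_congr rfl fun c _ => ?_
      have h3 : ∑ a : α, law μ (fun n => (f n, y n)) (a, c) *
          law μ (fun n => (g n, y n)) (b, c) / law μ y c =
          (∑ a : α, law μ (fun n => (f n, y n)) (a, c)) *
          law μ (fun n => (g n, y n)) (b, c) / law μ y c := by
        rw [Finset.sum_mul, Finset.sum_div]
      rw [h3, law_snd μ f y c]
      by_cases hc : law μ y c = 0
      · have h4 : law μ (fun n => (g n, y n)) (b, c) = 0 := by
          refine le_antisymm ?_ (law_nonneg μ _ _)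
          rw [← hc]
          refine law_mono μ _ _ _ _ ?_
          intro n hn
          exact (Prod.mk.inj hn).2
        rw [h4, mul_zero, zero_div]
      · rw [mul_div_assoc, mul_comm, div_mul_cancel₀ _ hc]
    simp only [h2]
    rw [Finset.sum_comm]
    have h5 : ∀ c : γ, ∑ b : β, law μ (fun n => (g n, y n)) (b, c) = law μ y c :=
      fun c => law_snd μ g y c
    simp only [h5]
    exact law_sum μ y
  have hG := MRA.gibbs (fun i => law μ F i) (fun i => A i * B i / C i)
    (fun i => law_nonneg μ F i) hq hpq hsum.le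
  have hlog : ∀ i, law μ F i * Real.log (A i * B i / C i) =
      law μ F i * Real.log (A i) + law μ F i * Real.log (B i) - law μ F i * Real.log (C i) := by
    intro i
    by_cases h0 : law μ F i = 0
    · rw [h0]; ring
    · have hp : 0 < law μ F i := lt_of_le_of_ne (law_nonneg μ F i) (Ne.symm h0)
      have ha : 0 < A i := lt_of_lt_of_le hp (hpA i)
      have hb : 0 < B i := lt_of_lt_of_le hp (hpB i)
      have hc : 0 < C i := lt_of_lt_of_le hp (hpC i)
      rw [Real.log_div (mul_pos ha hb).ne' hc.ne', Real.log_mul ha.ne' hb.ne']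
      ring
  have hS : ∑ i, law μ F i * Real.log (A i * B i / C i) =
      - ent μ (fun n => (f n, y n)) + - ent μ (fun n => (g n, y n)) - (- ent μ y) := by
    simp only [hlog]
    rw [Finset.sum_sub_distrib, Finset.sum_add_distrib]
    have e1 := submod_ent μ F (fun n => (f n, y n)) (fun i : α × β × γ => (i.1, i.2.2))
      (fun n => rfl)
    have e2 := submod_ent μ F (fun n => (g n, y n)) (fun i : α × β × γ => (i.2.1, i.2.2))
      (fun n => rfl)
    have e3 := submod_ent μ F y (fun i : α × β × γ => i.2.2) (fun n => rfl)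
    rw [← e1, ← e2, ← e3]
  rw [hS] at hG
  have hE : ent μ F = ∑ i, Real.negMulLog (law μ F i) := rfl
  rw [← hE] at hG
  linarith

/-- `H(f, y) ≤ H(f) + H(y)`. -/
theorem ent_pair_le {α γ : Type} [Fintype α] [Fintype γ] [DecidableEq α] [DecidableEq γ]
    [Nonempty α] [Nonempty γ] (f : S → α) (y : S → γ) :
    ent μ (fun x => (f x, y x)) ≤ ent μ f + ent μ y := by
  have h := submod μ f y (fun _ => ())
  have h1 : ent μ (fun x => (f x, y x)) ≤ ent μ (fun x => (f x, y x, ())) :=
    ent_factor μ _ _ fun a b hab => by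
      have h2 := congrArg Prod.fst hab
      have h3 := congrArg (fun z => z.2.1) hab
      exact Prod.ext h2 h3
  have h2 : ent μ (fun x => (f x, ())) ≤ ent μ f :=
    ent_factor μ _ _ fun a b hab => Prod.ext hab rfl
  have h3 : ent μ (fun x => (y x, ())) ≤ ent μ y :=
    ent_factor μ _ _ fun a b hab => Prod.ext hab rfl
  have h4 := ent_nonneg μ (fun _ : S => ())
  linarith

end DGE
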