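import Pool.Agent.Helper31.DG.Fp

/-!
# DIAG part D, D-05: the estimate at one scale, for invariant sets

`Psi p x = (p 1_{p ∣ pos x} - 1) ∏_{i ≤ k} f i (T^{i a p} x)`. For a `T`-invariant `J : S → Bool`, with `w` the word of length
`(2k+1) P` along the step `a` and `y` the residue modulo `MP P = ∏_{P < p ≤ 2P} p`:
`t * avg_p |R (1_J Psi p)| ≤ H(w) + log MP P - H(w, y) + log 2 + 2 t² / |D|`.
-/

set_option autoImplicit false

namespace DGE

open Finset DG MRP

/-- The letter at `x`: the set of the `i ≤ k` with `f i x = 1`. -/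
noncomputable def lett {S : Type} (k : ℕ) (f : ℕ → S → ℝ) (x : S) : Fin (k + 1) → Bool :=
  open Classical in fun i => decide (f i x = 1)

/-- The integrand at the prime `p`. -/
noncomputable def Psi (X : Sys) (pos : X.S → ℤ) (k : ℕ) (f : ℕ → X.S → ℝ) (a p : ℕ) (x : X.S) : ℝ :=
  ((if (p : ℤ) ∣ pos x then (p : ℝ) else 0) - 1) *
    ∏ i ∈ range (k + 1), f i ((X.T ^ ((i : ℤ) * (a * p))) x)

/-- The pattern read off a word. -/
noncomputable def phi (k : ℕ) {L : ℕ} (v : Fin L → Fin (k + 1) → Bool) (p l : ℕ) : ℝ :=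
  ∏ i : Fin (k + 1), (if h : l + (i : ℕ) * p < L then
    (if v ⟨l + (i : ℕ) * p, h⟩ i = true then (1 : ℝ) else 0) else 0)

theorem phi_nonneg (k : ℕ) {L : ℕ} (v : Fin L → Fin (k + 1) → Bool) (p l : ℕ) :
    0 ≤ phi k v p l := by
  unfold phi
  refine Finset.prod_nonneg fun i _ => ?_
  split_ifs <;> norm_num

theorem phi_le_one (k : ℕ) {L : ℕ} (v : Fin L → Fin (k + 1) → Bool) (p l : ℕ) :
    phi k v p l ≤ 1 := by
  unfold phi
  refine Finset.prod_le_one (fun i _ => ?_) (fun i _ => ?_) <;> split_ifs <;> norm_num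

theorem phi_word (X : Sys) (k : ℕ) (f : ℕ → X.S → ℝ) (hf : ∀ i x, f i x = 0 ∨ f i x = 1)
    (a P p l : ℕ) (hl : l < P) (hp : p ≤ 2 * P) (x : X.S) :
    phi k (word X (lett k f) a ((2 * k + 1) * P) x) p l =
      ∏ i ∈ range (k + 1), f i ((X.T ^ ((i : ℤ) * (a * p))) ((X.T ^ ((a : ℤ) * (l : ℤ))) x)) := by
  unfold phi
  rw [Finset.prod_range]
  refine Finset.prod_congr rfl fun i _ => ?_
  have hi : (i : ℕ) ≤ k := Nat.lt_succ_iff.1 i.2
  have h : l + (i : ℕ) * p < (2 * k + 1) * P := by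
    have h1 : (i : ℕ) * p ≤ k * (2 * P) := Nat.mul_le_mul hi hp
    have h2 : (2 * k + 1) * P = k * (2 * P) + P := by ring
    omega
  rw [dif_pos h]
  have h3 : (X.T ^ (((i : ℕ) : ℤ) * (a * p))) ((X.T ^ ((a : ℤ) * (l : ℤ))) x) =
      (X.T ^ ((a : ℤ) * ((l + (i : ℕ) * p : ℕ) : ℤ))) x := by
    rw [← Equiv.Perm.mul_apply, ← zpow_add]
    congr 2
    push_cast
    ring
  rw [h3]
  simp only [word, lett, decide_eq_true_eq]
  rcases hf (i : ℕ) ((X.T ^ ((a : ℤ) * ((l + (i : ℕ) * p : ℕ) : ℤ))) x) with h4 | h4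
  · rw [h4, if_neg (by norm_num)]
  · rw [h4, if_pos rfl]

theorem Psi_abs (X : Sys) (pos : X.S → ℤ) (k : ℕ) (f : ℕ → X.S → ℝ)
    (hf : ∀ i x, f i x = 0 ∨ f i x = 1) (a p : ℕ) (x : X.S) :
    |Psi X pos k f a p x| ≤ (p : ℝ) + 1 := by
  unfold Psi
  rw [abs_mul]
  have h1 : |∏ i ∈ range (k + 1), f i ((X.T ^ ((i : ℤ) * (a * p))) x)| ≤ 1 := by
    rw [Finset.abs_prod]
    refine Finset.prod_le_one (fun i _ => abs_nonneg _) (fun i _ => ?_)
    rcases hf i ((X.T ^ ((i : ℤ) * (a * p))) x) with h | h <;> simp [h]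
  have h2 : |(if (p : ℤ) ∣ pos x then (p : ℝ) else 0) - 1| ≤ (p : ℝ) + 1 := by
    have hp : (0 : ℝ) ≤ p := Nat.cast_nonneg p
    split_ifs
    · rw [abs_le]; constructor <;> linarith
    · rw [abs_le]; constructor <;> linarith
  calc |(if (p : ℤ) ∣ pos x then (p : ℝ) else 0) - 1| *
      |∏ i ∈ range (k + 1), f i ((X.T ^ ((i : ℤ) * (a * p))) x)|
      ≤ ((p : ℝ) + 1) * 1 := mul_le_mul h2 h1 (abs_nonneg _) (by positivity)
    _ = (p : ℝ) + 1 := mul_one _

/-- Invariance of the mean, averaged over `l < P`. -/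
theorem R_Psi (X : Sys) (pos : X.S → ℤ) (hpos : ∀ x, pos (X.T x) = pos x + 1) (k : ℕ)
    (f : ℕ → X.S → ℝ) (hf : ∀ i x, f i x = 0 ∨ f i x = 1) (a P p : ℕ) (hp : p ∈ dyP P)
    (J : X.S → Bool) (hJ : ∀ x, J (X.T x) = J x) :
    X.μ.R (fun x => (if J x = true then (1 : ℝ) else 0) * Psi X pos k f a p x) =
      X.μ.R (fun x => (if J x = true then (1 : ℝ) else 0) *
        fp P p a (phi k (word X (lett k f) a ((2 * k + 1) * P) x) p) (res pos (MP P) x : ℕ)) := by
  have hpm := Finset.mem_filter.1 hp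
  have h2 := Finset.mem_Ioc.1 hpm.1
  have hP : 0 < P := by omega
  have hPr : (P : ℝ) ≠ 0 := by exact_mod_cast hP.ne'
  have hdvd : p ∣ MP P := by
    unfold MP
    exact Finset.dvd_prod_of_mem (fun p => p) hp
  have hJn : ∀ (n : ℤ) (x : X.S), J ((X.T ^ n) x) = J x := by
    have hnat : ∀ (n : ℕ) (x : X.S), J ((X.T ^ n) x) = J x := by
      intro n
      induction n with
      | zero => intro x; simp
      | succ n ih =>
        intro x
        have h1 : (X.T ^ (n + 1)) x = (X.T ^ n) (X.T x) := rfl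
        rw [h1, ih, hJ]
    intro n x
    rcases Int.eq_nat_or_neg n with ⟨m, rfl | rfl⟩
    · rw [zpow_natCast]
      exact hnat m x
    · have h1 := hnat m ((X.T ^ (-(m : ℤ))) x)
      have h2 : (X.T ^ m) ((X.T ^ (-(m : ℤ))) x) = x := by
        rw [zpow_neg, zpow_natCast, Equiv.Perm.inv_def, Equiv.apply_symm_apply]
      rw [h2] at h1
      exact h1.symm
  have hbd : ∀ x, |(if J x = true then (1 : ℝ) else 0) * Psi X pos k f a p x| ≤ (p : ℝ) + 1 := by
    intro x
    have h1 := Psi_abs X pos k f hf a p x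
    split_ifs
    · rw [one_mul]; exact h1
    · rw [zero_mul, abs_zero]; positivity
  have hl : ∀ l ∈ range P, X.μ.R (fun x => (if J x = true then (1 : ℝ) else 0) *
      (((if p ∣ (res pos (MP P) x : ℕ) + a * l then (p : ℝ) else 0) - 1) *
        phi k (word X (lett k f) a ((2 * k + 1) * P) x) p l)) =
      X.μ.R (fun x => (if J x = true then (1 : ℝ) else 0) * Psi X pos k f a p x) := by
    intro l hl
    rw [← R_inv X ((a : ℤ) * (l : ℤ))
      (fun x => (if J x = true then (1 : ℝ) else 0) * Psi X pos k f a p x) hbd]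
    congr 1
    funext x
    rw [hJn]
    congr 1
    unfold Psi
    rw [phi_word X k f hf a P p l (Finset.mem_range.1 hl) h2.2 x, pos_zpow X pos hpos]
    congr 2
    have h3 := res_dvd pos (MP P) hdvd x (a * l)
    push_cast at h3
    by_cases h4 : p ∣ (res pos (MP P) x : ℕ) + a * l
    · rw [if_pos h4, if_pos (h3.2 h4)]
    · rw [if_neg h4, if_neg (fun h => h4 (h3.1 h))]
  have h5 : (fun x => (if J x = true then (1 : ℝ) else 0) *
        fp P p a (phi k (word X (lett k f) a ((2 * k + 1) * P) x) p) (res pos (MP P) x : ℕ)) =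
      fun x => (1 / (P : ℝ)) * ∑ l ∈ range P, (if J x = true then (1 : ℝ) else 0) *
        (((if p ∣ (res pos (MP P) x : ℕ) + a * l then (p : ℝ) else 0) - 1) *
          phi k (word X (lett k f) a ((2 * k + 1) * P) x) p l) := by
    funext x
    unfold fp
    rw [← Finset.mul_sum]
    ring
  rw [h5, X.μ.R_const_mul, X.μ.R_sum, Finset.sum_congr rfl hl, Finset.sum_const, card_range,
    nsmul_eq_mul]
  field_simp

theorem point (X : Sys) (pos : X.S → ℤ) (hpos : ∀ x, pos (X.T x) = pos x + 1) (k : ℕ)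
    (f : ℕ → X.S → ℝ) (hf : ∀ i x, f i x = 0 ∨ f i x = 1) (a P : ℕ)
    (ha : ∀ p ∈ dyP P, ¬ p ∣ a) (J : X.S → Bool) (hJ : ∀ x, J (X.T x) = J x) (t : ℝ)
    (ht : 0 < t) :
    t * ((1 / ((dyP P).card : ℝ)) * ∑ p ∈ dyP P,
      |X.μ.R (fun x => (if J x = true then (1 : ℝ) else 0) * Psi X pos k f a p x)|) ≤
      ent X.μ (word X (lett k f) a ((2 * k + 1) * P)) + Real.log (MP P) -
        ent X.μ (fun x => (word X (lett k f) a ((2 * k + 1) * P) x, res pos (MP P) x)) +
        Real.log 2 + 2 * t ^ 2 / ((dyP P).card : ℝ) := by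
  classical
  set L : ℕ := (2 * k + 1) * P with hL
  set w : X.S → (Fin L → Fin (k + 1) → Bool) := word X (lett k f) a L with hw
  set y : X.S → Fin (MP P) := res pos (MP P) with hy
  set σ : ℕ → ℝ := fun p => if 0 ≤ X.μ.R (fun x => (if J x = true then (1 : ℝ) else 0) *
    Psi X pos k f a p x) then 1 else -1 with hσ
  have hσ1 : ∀ p, |σ p| ≤ 1 := by
    intro p
    simp only [hσ]
    split_ifs <;> simp
  have hσ2 : ∀ p, σ p * X.μ.R (fun x => (if J x = true then (1 : ℝ) else 0) *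
      Psi X pos k f a p x) = |X.μ.R (fun x => (if J x = true then (1 : ℝ) else 0) *
      Psi X pos k f a p x)| := by
    intro p
    simp only [hσ]
    split_ifs with h
    · rw [one_mul, abs_of_nonneg h]
    · rw [abs_of_neg (not_le.1 h)]
      ring
  set d : ℝ := ((dyP P).card : ℝ) with hd
  set F : (Bool × (Fin L → Fin (k + 1) → Bool)) → Fin (MP P) → ℝ := fun v r =>
    (if v.1 = true then t * FF P a σ (phi k v.2) (r : ℕ) else 0) with hF
  have h1 := dv X.μ (fun x => (J x, w x)) y F (Real.exp (2 * t ^ 2 / d)) (Real.exp_pos _) (by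
    intro v
    simp only [hF]
    by_cases hv : v.1 = true
    · simp only [hv, if_true]
      exact hoeff_fin P a ha σ hσ1 (phi k v.2) (phi_nonneg k v.2) (phi_le_one k v.2) t
    · have hv' : v.1 = false := by simpa using hv
      simp only [hv', Bool.false_eq_true, if_false, Real.exp_zero, Finset.sum_const,
        Finset.card_univ, nsmul_eq_mul, mul_one]
      have h2 : (1 : ℝ) ≤ Real.exp (2 * t ^ 2 / d) := by
        apply Real.one_le_exp
        have : 0 ≤ d := Nat.cast_nonneg _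
        positivity
      nlinarith [(Nat.cast_nonneg (Fintype.card (Fin (MP P))) : (0 : ℝ) ≤ _)])
  rw [Real.log_exp, Fintype.card_fin] at h1
  have h2 : X.μ.R (fun x => F (J x, w x) (y x)) = t * ((1 / d) * ∑ p ∈ dyP P,
      |X.μ.R (fun x => (if J x = true then (1 : ℝ) else 0) * Psi X pos k f a p x)|) := by
    have h3 : (fun x => F (J x, w x) (y x)) = fun x => t * ((1 / d) * ∑ p ∈ dyP P,
        σ p * ((if J x = true then (1 : ℝ) else 0) *
          fp P p a (phi k (w x) p) (y x : ℕ))) := by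
      funext x
      simp only [hF, FF]
      by_cases hx : J x = true
      · simp only [hx, if_true, one_mul, hd]
      · simp only [hx, Bool.false_eq_true, if_false, zero_mul, mul_zero, Finset.sum_const_zero]
    rw [h3, X.μ.R_const_mul, X.μ.R_const_mul, X.μ.R_sum]
    congr 2
    refine Finset.sum_congr rfl fun p hp => ?_
    rw [X.μ.R_const_mul, ← hσ2 p, R_Psi X pos hpos k f hf a P p hp J hJ]
  rw [h2] at h1
  have h3 : ent X.μ (fun x => (J x, w x)) ≤ Real.log 2 + ent X.μ w := by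
    have h4 := ent_pair_le X.μ J w
    have h5 : ent X.μ J ≤ Real.log 2 := by
      have := ent_le_card X.μ J
      simpa using this
    linarith
  have h4 : ent X.μ (fun x => (w x, y x)) ≤ ent X.μ (fun x => ((J x, w x), y x)) :=
    ent_factor X.μ _ _ fun x x' h => by
      have h5 := congrArg (fun z => z.1.2) h
      have h6 := congrArg Prod.snd h
      simp only at h5 h6
      exact Prod.ext h5 h6
  linarith

end DGE
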