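import Mathlib

/-!
# DIAG part D, D-07: the bad scales are sparse (real analysis)

`h` antitone, nonnegative; for every `j ∈ B`, `1 ≤ j`, and every `s` with `K j ≤ 2^s`: `h (j+s) ≤ h j - κ / j`. Then
`∑_{j ∈ B} 1/((j+2) log (j+2)) < ∞`. Blocks `[2^r, 2^(r+1))`, `s = r + m0` constant on a block.
-/

set_option autoImplicit false

namespace DGE

open Finset

/-- the weight of the scale `j` -/
noncomputable def wt (j : ℕ) : ℝ := 1 / (((j : ℝ) + 2) * Real.log ((j : ℝ) + 2))

theorem wt_pos (j : ℕ) : 0 < wt j := by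
  unfold wt
  have h1 : (0 : ℝ) < (j : ℝ) + 2 := by positivity
  have h2 : 0 < Real.log ((j : ℝ) + 2) := Real.log_pos (by
    have : (0 : ℝ) ≤ j := Nat.cast_nonneg j
    linarith)
  positivity

private theorem block (h : ℕ → ℝ) (hanti : Antitone h) (A n s : ℕ) :
    ∑ j ∈ range n, (h (A + j) - h (A + j + s)) ≤ s * (h A - h (A + n + s)) := by
  have h1 : ∀ s : ℕ, ∑ j ∈ range n, (h (A + j) - h (A + j + s)) =
      ∑ i ∈ range s, (h (A + i) - h (A + i + n)) := by
    intro s
    induction s with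
    | zero => simp
    | succ s ih =>
      rw [Finset.sum_range_succ, ← ih]
      have h2 : ∑ j ∈ range n, (h (A + j) - h (A + j + (s + 1))) =
          ∑ j ∈ range n, (h (A + j) - h (A + j + s)) +
            ∑ j ∈ range n, (h (A + s + j) - h (A + s + (j + 1))) := by
        rw [← Finset.sum_add_distrib]
        refine Finset.sum_congr rfl fun j _ => ?_
        have e1 : A + j + (s + 1) = A + s + (j + 1) := by ring
        have e2 : A + s + j = A + j + s := by ring
        rw [e1, e2]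
        ring
      rw [h2]
      congr 1
      have h3 := Finset.sum_range_sub' (fun j => h (A + s + j)) n
      simp only [add_zero] at h3
      exact h3
  rw [h1]
  have h4 : ∀ i ∈ range s, h (A + i) - h (A + i + n) ≤ h A - h (A + n + s) := by
    intro i hi
    have hi' := Finset.mem_range.1 hi
    have a1 := hanti (show A ≤ A + i by omega)
    have a2 := hanti (show A + i + n ≤ A + n + s by omega)
    linarith
  refine (Finset.sum_le_sum h4).trans (le_of_eq ?_)
  rw [Finset.sum_const, card_range, nsmul_eq_mul]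

theorem summ (h : ℕ → ℝ) (hanti : Antitone h) (h0 : ∀ j, 0 ≤ h j) (κ K : ℝ) (hκ : 0 < κ)
    (B : Set ℕ) (hB : ∀ j ∈ B, 1 ≤ j → ∀ s : ℕ, K * j ≤ (2 : ℝ) ^ s → h (j + s) ≤ h j - κ / j) :
    Summable (fun j : ℕ => Set.indicator B wt j) := by
  classical
  -- `m0` with `2^m0 ≥ 2 K`
  obtain ⟨m0, hm0⟩ := pow_unbounded_of_one_lt (2 * |K|) (one_lt_two (α := ℝ))
  -- `r0` with `2^(r+1) + r + m0 ≤ 2^(r+2)` for `r ≥ r0`, and `r ≥ 1`, `m0 ≤ r`
  set r0 : ℕ := m0 + 1 with hr0
  have hr : ∀ r, r0 ≤ r → 2 ^ (r + 1) + r + m0 ≤ 2 ^ (r + 2) := by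
    intro r hr
    have h1 : r < 2 ^ r := Nat.lt_two_pow_self
    have h2 : (2 : ℕ) ^ (r + 1) = 2 * 2 ^ r := by ring
    have h3 : (2 : ℕ) ^ (r + 2) = 4 * 2 ^ r := by ring
    omega
  set C : ℝ := 2 / (κ * Real.log 2) with hC
  have hlog2 : 0 < Real.log 2 := Real.log_pos (by norm_num)
  have hC0 : 0 < C := by positivity
  have hblock : ∀ r, r0 ≤ r → ∑ j ∈ Ico (2 ^ r) (2 ^ (r + 1)), Set.indicator B wt j ≤
      C * (h (2 ^ r) - h (2 ^ (r + 2))) := by
    intro r hr1
    have hrpos : (0 : ℝ) < r := by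
      have : 1 ≤ r := by omega
      exact_mod_cast this
    have hterm : ∀ j ∈ Ico (2 ^ r) (2 ^ (r + 1)), Set.indicator B wt j ≤
        1 / (κ * (r * Real.log 2)) * (h j - h (j + (r + m0))) := by
      intro j hj
      have hj' := Finset.mem_Ico.1 hj
      have hj1 : 1 ≤ j := le_trans Nat.one_le_two_pow hj'.1
      have hjpos : (0 : ℝ) < j := by exact_mod_cast hj1
      have ha := hanti (show j ≤ j + (r + m0) by omega)
      by_cases hjB : j ∈ B
      · rw [Set.indicator_of_mem hjB]
        have h1 := hB j hjB hj1 (r + m0) (by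
          have e1 : (j : ℝ) ≤ 2 * 2 ^ r := by
            have : j ≤ 2 * 2 ^ r := by
              have e2 : (2 : ℕ) ^ (r + 1) = 2 * 2 ^ r := by ring
              omega
            exact_mod_cast this
          calc K * j ≤ |K| * j := mul_le_mul_of_nonneg_right (le_abs_self K) hjpos.le
            _ ≤ |K| * (2 * 2 ^ r) := mul_le_mul_of_nonneg_left e1 (abs_nonneg K)
            _ = (2 * |K|) * 2 ^ r := by ring
            _ ≤ 2 ^ m0 * 2 ^ r := mul_le_mul_of_nonneg_right hm0.le (by positivity)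
            _ = 2 ^ (r + m0) := by rw [pow_add]; ring)
        have h2 : κ / j ≤ h j - h (j + (r + m0)) := by linarith
        have h3 : (r : ℝ) * Real.log 2 ≤ Real.log ((j : ℝ) + 2) := by
          rw [← Real.log_pow]
          refine Real.log_le_log (by positivity) ?_
          have : ((2 ^ r : ℕ) : ℝ) ≤ j := by exact_mod_cast hj'.1
          push_cast at this
          linarith
        have hL : 0 < (r : ℝ) * Real.log 2 := by positivity
        calc wt j = 1 / (((j : ℝ) + 2) * Real.log ((j : ℝ) + 2)) := rfl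
          _ ≤ 1 / ((j : ℝ) * (r * Real.log 2)) := by
              refine one_div_le_one_div_of_le (by positivity) ?_
              exact mul_le_mul (by linarith) h3 hL.le (by positivity)
          _ = 1 / (κ * (r * Real.log 2)) * (κ / j) := by
              field_simp
          _ ≤ _ := mul_le_mul_of_nonneg_left h2 (by positivity)
      · rw [Set.indicator_of_notMem hjB]
        have : 0 ≤ h j - h (j + (r + m0)) := by linarith
        positivity
    refine (Finset.sum_le_sum hterm).trans ?_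
    rw [← Finset.mul_sum, Finset.sum_Ico_eq_sum_range]
    have hn : 2 ^ (r + 1) - 2 ^ r = 2 ^ r := by
      have e2 : (2 : ℕ) ^ (r + 1) = 2 * 2 ^ r := by ring
      omega
    rw [hn]
    have hb := block h hanti (2 ^ r) (2 ^ r) (r + m0)
    have hb2 : h (2 ^ r) - h (2 ^ r + 2 ^ r + (r + m0)) ≤ h (2 ^ r) - h (2 ^ (r + 2)) := by
      have e2 : (2 : ℕ) ^ (r + 1) = 2 ^ r + 2 ^ r := by ring
      have e3 := hr r hr1
      have := hanti (show 2 ^ r + 2 ^ r + (r + m0) ≤ 2 ^ (r + 2) by omega)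
      linarith
    have hd0 : 0 ≤ h (2 ^ r) - h (2 ^ (r + 2)) := by
      have := hanti (show (2 : ℕ) ^ r ≤ 2 ^ (r + 2) from Nat.pow_le_pow_right (by norm_num)
        (by omega))
      linarith
    have hm : ((r + m0 : ℕ) : ℝ) ≤ 2 * r := by
      have : r + m0 ≤ 2 * r := by omega
      exact_mod_cast this
    calc 1 / (κ * (r * Real.log 2)) * ∑ j ∈ range (2 ^ r),
          (h (2 ^ r + j) - h (2 ^ r + j + (r + m0)))
        ≤ 1 / (κ * (r * Real.log 2)) *
          (((r + m0 : ℕ) : ℝ) * (h (2 ^ r) - h (2 ^ r + 2 ^ r + (r + m0)))) :=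
          mul_le_mul_of_nonneg_left hb (by positivity)
      _ ≤ 1 / (κ * (r * Real.log 2)) * ((2 * r) * (h (2 ^ r) - h (2 ^ (r + 2)))) := by
          refine mul_le_mul_of_nonneg_left ?_ (by positivity)
          refine (mul_le_mul_of_nonneg_left hb2 (Nat.cast_nonneg _)).trans ?_
          exact mul_le_mul_of_nonneg_right hm hd0
      _ = C * (h (2 ^ r) - h (2 ^ (r + 2))) := by
          rw [hC]
          field_simp
  -- sum over the blocks
  have hnn : ∀ j, 0 ≤ Set.indicator B wt j := fun j =>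
    Set.indicator_nonneg (fun j _ => (wt_pos j).le) j
  have htot : ∀ R : ℕ, ∑ j ∈ range (2 ^ (r0 + R)), Set.indicator B wt j ≤
      ∑ j ∈ range (2 ^ r0), Set.indicator B wt j +
        C * (h (2 ^ r0) + h (2 ^ (r0 + 1)) - h (2 ^ (r0 + R)) - h (2 ^ (r0 + R + 1))) := by
    intro R
    induction R with
    | zero => simp
    | succ R ih =>
      have h1 := hblock (r0 + R) (by omega)
      have h2 : ∑ j ∈ range (2 ^ (r0 + (R + 1))), Set.indicator B wt j =
          ∑ j ∈ range (2 ^ (r0 + R)), Set.indicator B wt j +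
            ∑ j ∈ Ico (2 ^ (r0 + R)) (2 ^ (r0 + R + 1)), Set.indicator B wt j := by
        rw [Finset.sum_range_add_sum_Ico]
        · rfl
        · exact Nat.pow_le_pow_right (by norm_num) (by omega)
      rw [h2]
      have e1 : r0 + (R + 1) = r0 + R + 1 := by ring
      have e2 : r0 + (R + 1) + 1 = r0 + R + 2 := by ring
      rw [e1, show r0 + R + 1 + 1 = r0 + R + 2 by ring]
      have h3 : C * (h (2 ^ r0) + h (2 ^ (r0 + 1)) - h (2 ^ (r0 + R + 1)) -
          h (2 ^ (r0 + R + 2))) = C * (h (2 ^ r0) + h (2 ^ (r0 + 1)) - h (2 ^ (r0 + R)) -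
          h (2 ^ (r0 + R + 1))) + C * (h (2 ^ (r0 + R)) - h (2 ^ (r0 + R + 2))) := by ring
      rw [h3]
      linarith
  refine summable_of_sum_range_le (c := ∑ j ∈ range (2 ^ r0), Set.indicator B wt j +
    C * (h (2 ^ r0) + h (2 ^ (r0 + 1)))) hnn fun n => ?_
  have h1 : ∑ j ∈ range n, Set.indicator B wt j ≤
      ∑ j ∈ range (2 ^ (r0 + n)), Set.indicator B wt j := by
    refine Finset.sum_le_sum_of_subset_of_nonneg ?_ fun j _ _ => hnn j
    intro j hj
    rw [Finset.mem_range] at hj ⊢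
    have h2 : n < 2 ^ n := Nat.lt_two_pow_self
    have h3 : (2 : ℕ) ^ n ≤ 2 ^ (r0 + n) := Nat.pow_le_pow_right (by norm_num) (by omega)
    omega
  refine h1.trans ((htot n).trans ?_)
  have h2 := h0 (2 ^ (r0 + n))
  have h3 := h0 (2 ^ (r0 + n + 1))
  have h4 : C * (h (2 ^ r0) + h (2 ^ (r0 + 1)) - h (2 ^ (r0 + n)) - h (2 ^ (r0 + n + 1))) ≤
      C * (h (2 ^ r0) + h (2 ^ (r0 + 1))) := mul_le_mul_of_nonneg_left (by linarith) hC0.le
  linarith

end DGE
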