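import Pool.Agent.Helper6.DG.Defs
import Pool.Agent.Helper31.DG.Point
import Pool.Agent.Helper31.DG.Summ
import Pool.Agent.Helper11.MRA.Defect
import Pool.Agent.Helper11.MRA.Cheb

/-!
# DIAG part D, D-06: the entropy decrement at the scales `2^j`, and the statement for invariant sets

`hh j = H(word of length (2k+1) 2^j) / ((2k+1) 2^j)` is nonincreasing, and at a bad scale `j`:
`hh (j + s) ≤ hh j - κ / j` as soon as `2^s ≥ K j`.
-/

set_option autoImplicit false

namespace DGE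

open Finset DG MRP

/-- Normalised entropy at the scale `2^j`. -/
noncomputable def hh (X : Sys) (k : ℕ) (f : ℕ → X.S → ℝ) (a j : ℕ) : ℝ :=
  ent X.μ (word X (lett k f) a ((2 * k + 1) * 2 ^ j)) / ((2 * (k : ℝ) + 1) * 2 ^ j)

theorem hh_nonneg (X : Sys) (k : ℕ) (f : ℕ → X.S → ℝ) (a j : ℕ) : 0 ≤ hh X k f a j :=
  div_nonneg (ent_nonneg _ _) (by positivity)

theorem hh_anti (X : Sys) (k : ℕ) (f : ℕ → X.S → ℝ) (a : ℕ) : Antitone (hh X k f a) := by
  refine antitone_nat_of_succ_le fun j => ?_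
  have h := word_sub X (lett k f) a 2 ((2 * k + 1) * 2 ^ j)
  have e : 2 * ((2 * k + 1) * 2 ^ j) = (2 * k + 1) * 2 ^ (j + 1) := by ring
  rw [e] at h
  unfold hh
  rw [div_le_div_iff₀ (by positivity) (by positivity)]
  have h2 : (0 : ℝ) < (2 * (k : ℝ) + 1) * 2 ^ j := by positivity
  calc ent X.μ (word X (lett k f) a ((2 * k + 1) * 2 ^ (j + 1))) * ((2 * (k : ℝ) + 1) * 2 ^ j)
      ≤ (((2 : ℕ) : ℝ) * ent X.μ (word X (lett k f) a ((2 * k + 1) * 2 ^ j))) *
        ((2 * (k : ℝ) + 1) * 2 ^ j) := mul_le_mul_of_nonneg_right h h2.le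
    _ = ent X.μ (word X (lett k f) a ((2 * k + 1) * 2 ^ j)) *
        ((2 * (k : ℝ) + 1) * 2 ^ (j + 1)) := by
          push_cast
          ring

theorem hh_step (X : Sys) (pos : X.S → ℤ) (hpos : ∀ x, pos (X.T x) = pos x + 1) (k : ℕ)
    (f : ℕ → X.S → ℝ) (a j s : ℕ) :
    hh X k f a (j + s) ≤ hh X k f a j -
      (ent X.μ (word X (lett k f) a ((2 * k + 1) * 2 ^ j)) + Real.log (MP (2 ^ j)) -
        ent X.μ (fun x => (word X (lett k f) a ((2 * k + 1) * 2 ^ j) x, res pos (MP (2 ^ j)) x))) /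
        ((2 * (k : ℝ) + 1) * 2 ^ j) + 2 * Real.log 4 / ((2 * (k : ℝ) + 1) * 2 ^ s) := by
  have h := word_step X pos hpos (lett k f) a (2 ^ s) ((2 * k + 1) * 2 ^ j) (MP (2 ^ j))
  have e : 2 ^ s * ((2 * k + 1) * 2 ^ j) = (2 * k + 1) * 2 ^ (j + s) := by
    rw [pow_add]; ring
  rw [e] at h
  have hM : Real.log (MP (2 ^ j)) ≤ 2 * ((2 ^ j : ℕ) : ℝ) * Real.log 4 := MRA.MP_log (2 ^ j)
  push_cast at h hM
  unfold hh
  set H1 := ent X.μ (word X (lett k f) a ((2 * k + 1) * 2 ^ (j + s)))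
  set H0 := ent X.μ (word X (lett k f) a ((2 * k + 1) * 2 ^ j))
  set HY := ent X.μ (fun x => (word X (lett k f) a ((2 * k + 1) * 2 ^ j) x,
    res pos (MP (2 ^ j)) x))
  set LM := Real.log (MP (2 ^ j))
  have hd : (0 : ℝ) < (2 * (k : ℝ) + 1) * 2 ^ (j + s) := by positivity
  rw [div_le_iff₀ hd]
  have h2 : (H0 / ((2 * (k : ℝ) + 1) * 2 ^ j) - (H0 + LM - HY) / ((2 * (k : ℝ) + 1) * 2 ^ j) +
      2 * Real.log 4 / ((2 * (k : ℝ) + 1) * 2 ^ s)) * ((2 * (k : ℝ) + 1) * 2 ^ (j + s)) =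
      2 ^ s * (HY - LM) + 2 * 2 ^ j * Real.log 4 := by
    rw [pow_add]
    field_simp
    ring
  rw [h2]
  linarith

private theorem two_pow_ge (j : ℕ) (hj : 4 ≤ j) : j ^ 2 ≤ 2 ^ j := by
  induction j, hj using Nat.le_induction with
  | base => norm_num
  | succ n hn ih =>
    have h1 : 2 ^ (n + 1) = 2 * 2 ^ n := by ring
    rw [h1]
    nlinarith

theorem bool_sf (X : Sys) (pos : X.S → ℤ) (hpos : ∀ x, pos (X.T x) = pos x + 1) (k : ℕ)
    (f : ℕ → X.S → ℝ) (hf : ∀ i x, f i x = 0 ∨ f i x = 1) (a : ℕ) (ha : 1 ≤ a) (ε : ℝ)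
    (hε : 0 < ε) :
    SFset {j | ∀ J : X.S → Bool, (∀ x, J (X.T x) = J x) →
      (1 / ((dyP (2 ^ j)).card : ℝ)) * ∑ p ∈ dyP (2 ^ j),
        |X.μ.R (fun x => (if J x = true then (1 : ℝ) else 0) * Psi X pos k f a p x)| ≤ ε} := by
  obtain ⟨c0, hc0, Pstar, hP3, hcheb⟩ := MRA.cheb
  have hlog2 : 0 < Real.log 2 := Real.log_pos (by norm_num)
  have hlog4 : 0 < Real.log 4 := Real.log_pos (by norm_num)
  set κ : ℝ := ε ^ 2 * c0 / (32 * (2 * k + 1) * Real.log 2) with hκ
  have hκ0 : 0 < κ := by positivity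
  set K : ℝ := 2 * Real.log 4 / ((2 * k + 1) * κ) with hK
  obtain ⟨N0, hN0⟩ := exists_nat_ge (16 * Real.log 2 ^ 2 / (ε ^ 2 * c0))
  set j1 : ℕ := max (max 4 N0) (max a Pstar) with hj1
  set A : Set ℕ := {j | ∀ J : X.S → Bool, (∀ x, J (X.T x) = J x) →
      (1 / ((dyP (2 ^ j)).card : ℝ)) * ∑ p ∈ dyP (2 ^ j),
        |X.μ.R (fun x => (if J x = true then (1 : ℝ) else 0) * Psi X pos k f a p x)| ≤ ε} with hA
  set B : Set ℕ := {j | j1 ≤ j ∧ j ∈ Aᶜ} with hB
  have hsum := summ (hh X k f a) (hh_anti X k f a) (hh_nonneg X k f a) κ K hκ0 B (by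
    intro j hj hj0 s hs
    obtain ⟨hjj, hjA⟩ := hj
    have h4 : 4 ≤ j := le_trans (le_trans (le_max_left _ _) (le_max_left _ _)) hjj
    have hN : N0 ≤ j := le_trans (le_trans (le_max_right _ _) (le_max_left _ _)) hjj
    have haj : a ≤ j := le_trans (le_trans (le_max_left _ _) (le_max_right _ _)) hjj
    have hPj : Pstar ≤ j := le_trans (le_trans (le_max_right _ _) (le_max_right _ _)) hjj
    have hj2 : j < 2 ^ j := Nat.lt_two_pow_self
    have hjpos : (0 : ℝ) < j := by exact_mod_cast hj0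
    have hjA' : ¬ ∀ J : X.S → Bool, (∀ x, J (X.T x) = J x) →
      (1 / ((dyP (2 ^ j)).card : ℝ)) * ∑ p ∈ dyP (2 ^ j),
        |X.μ.R (fun x => (if J x = true then (1 : ℝ) else 0) * Psi X pos k f a p x)| ≤ ε := hjA
    push Not at hjA'
    obtain ⟨J, hJ, hbad⟩ := hjA'
    set D : ℝ := ((dyP (2 ^ j)).card : ℝ) with hD
    have hch := hcheb (2 ^ j) (by omega)
    have hlogj : Real.log ((2 ^ j : ℕ) : ℝ) = j * Real.log 2 := by
      push_cast
      rw [Real.log_pow]
    rw [hlogj] at hch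
    push_cast at hch
    have hDlow : c0 * 2 ^ j / (j * Real.log 2) ≤ D := hch
    have hDpos : 0 < D := lt_of_lt_of_le (by positivity) hDlow
    have hD16 : Real.log 2 ≤ ε ^ 2 * D / 16 := by
      have h5 : (j : ℝ) ^ 2 ≤ 2 ^ j := by exact_mod_cast two_pow_ge j h4
      have h6 : c0 * j / Real.log 2 ≤ D := by
        refine le_trans ?_ hDlow
        rw [div_le_div_iff₀ hlog2 (by positivity)]
        have : c0 * ((j : ℝ) ^ 2) * Real.log 2 ≤ c0 * 2 ^ j * Real.log 2 := by gcongr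
        nlinarith
      have h7 : 16 * Real.log 2 ^ 2 / (ε ^ 2 * c0) ≤ j := hN0.trans (by exact_mod_cast hN)
      rw [div_le_iff₀ (by positivity)] at h7
      rw [div_le_iff₀ hlog2] at h6
      rw [le_div_iff₀ (by norm_num)]
      have h8 : 16 * Real.log 2 ^ 2 ≤ ε ^ 2 * D * Real.log 2 := by
        calc 16 * Real.log 2 ^ 2 ≤ j * (ε ^ 2 * c0) := h7
          _ = ε ^ 2 * (c0 * j) := by ring
          _ ≤ ε ^ 2 * (D * Real.log 2) := by gcongr
          _ = ε ^ 2 * D * Real.log 2 := by ring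
      nlinarith
    have hnd : ∀ p ∈ dyP (2 ^ j), ¬ p ∣ a := by
      intro p hp hpa
      have h5 := (Finset.mem_Ioc.1 (Finset.mem_filter.1 hp).1).1
      have h6 := Nat.le_of_dvd (by omega) hpa
      omega
    have hpt := point X pos hpos k f hf a (2 ^ j) hnd J hJ (ε / 4 * D) (by positivity)
    have hst := hh_step X pos hpos k f a j s
    set I : ℝ := ent X.μ (word X (lett k f) a ((2 * k + 1) * 2 ^ j)) + Real.log (MP (2 ^ j)) -
        ent X.μ (fun x => (word X (lett k f) a ((2 * k + 1) * 2 ^ j) x,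
          res pos (MP (2 ^ j)) x)) with hI
    have h5 : ε / 4 * D * ε ≤ ε / 4 * D * ((1 / D) * ∑ p ∈ dyP (2 ^ j),
        |X.μ.R (fun x => (if J x = true then (1 : ℝ) else 0) * Psi X pos k f a p x)|) :=
      mul_le_mul_of_nonneg_left hbad.le (by positivity)
    have h6 : 2 * (ε / 4 * D) ^ 2 / D = ε ^ 2 * D / 8 := by
      field_simp
      ring
    rw [h6] at hpt
    have h7 : ε ^ 2 * D / 16 ≤ I := by
      have : ε / 4 * D * ε = ε ^ 2 * D / 4 := by ring
      linarith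
    have h8 : 2 * κ / j ≤ I / ((2 * (k : ℝ) + 1) * 2 ^ j) := by
      rw [le_div_iff₀ (by positivity)]
      calc 2 * κ / j * ((2 * (k : ℝ) + 1) * 2 ^ j)
          = ε ^ 2 / 16 * (c0 * 2 ^ j / (j * Real.log 2)) := by
            rw [hκ]; field_simp; ring
        _ ≤ ε ^ 2 / 16 * D := mul_le_mul_of_nonneg_left hDlow (by positivity)
        _ ≤ I := by linarith
    have h9 : 2 * Real.log 4 / ((2 * (k : ℝ) + 1) * 2 ^ s) ≤ κ / j := by
      rw [div_le_div_iff₀ (by positivity) hjpos]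
      have h10 : K * j * ((2 * k + 1) * κ) = 2 * Real.log 4 * j := by
        rw [hK]; field_simp
      calc 2 * Real.log 4 * j = K * j * ((2 * k + 1) * κ) := h10.symm
        _ ≤ 2 ^ s * ((2 * k + 1) * κ) := mul_le_mul_of_nonneg_right hs (by positivity)
        _ = κ * ((2 * (k : ℝ) + 1) * 2 ^ s) := by ring
    have h11 : 2 * κ / j = κ / j + κ / j := by ring
    linarith)
  -- the finitely many small scales
  have hfin : Summable (fun j : ℕ => Set.indicator {j | j < j1} wt j) := by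
    refine summable_of_ne_finset_zero (s := range j1) fun j hj => ?_
    rw [Set.indicator_of_notMem]
    intro h
    exact hj (Finset.mem_range.2 h)
  unfold SFset
  have hadd := hsum.add hfin
  refine Summable.of_nonneg_of_le (fun j => ?_) (fun j => ?_) hadd
  · exact Set.indicator_nonneg (fun j _ => (wt_pos j).le) j
  · by_cases hj : j ∈ Aᶜ
    · rw [Set.indicator_of_mem hj]
      by_cases hj2 : j1 ≤ j
      · have h1 : j ∈ B := ⟨hj2, hj⟩
        rw [Set.indicator_of_mem h1]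
        have h2 : 0 ≤ Set.indicator {j | j < j1} wt j :=
          Set.indicator_nonneg (fun j _ => (wt_pos j).le) j
        have h3 : wt j = 1 / (((j : ℝ) + 2) * Real.log ((j : ℝ) + 2)) := rfl
        linarith
      · have h1 : j ∈ {j | j < j1} := not_le.1 hj2
        rw [Set.indicator_of_mem h1]
        have h2 : 0 ≤ Set.indicator B wt j :=
          Set.indicator_nonneg (fun j _ => (wt_pos j).le) j
        have h3 : wt j = 1 / (((j : ℝ) + 2) * Real.log ((j : ℝ) + 2)) := rfl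
        linarith
    · rw [Set.indicator_of_notMem hj]
      have h1 : 0 ≤ Set.indicator B wt j := Set.indicator_nonneg (fun j _ => (wt_pos j).le) j
      have h2 : 0 ≤ Set.indicator {j | j < j1} wt j :=
        Set.indicator_nonneg (fun j _ => (wt_pos j).le) j
      linarith

end DGE
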