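import Pool.Agent.Helper31.DG.Chain
import Pool.Agent.Helper11.MRA.Crt

/-!
# DIAG part D, D-04: the contribution of one prime, exponential moments

`fp P p a φ r = (1/P) ∑_{l<P} (p 1_{p ∣ r + a l} - 1) φ l`, `P < p ≤ 2P`, `p ∤ a`, `0 ≤ φ ≤ 1`.
-/

set_option autoImplicit false

namespace DGE

open Finset DG MRP

/-- The contribution of the prime `p` at scale `P`. -/
noncomputable def fp (P p a : ℕ) (φ : ℕ → ℝ) (r : ℕ) : ℝ :=
  (1 / (P : ℝ)) * ∑ l ∈ range P, (((if p ∣ r + a * l then (p : ℝ) else 0) - 1) * φ l)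

theorem fp_mod (P p a : ℕ) (φ : ℕ → ℝ) (r : ℕ) : fp P p a φ r = fp P p a φ (r % p) := by
  unfold fp
  congr 1
  apply Finset.sum_congr rfl
  intro j _
  have h : (p ∣ r + a * j) ↔ (p ∣ r % p + a * j) := by
    have h1 : r % p + a * j ≡ r + a * j [MOD p] := (Nat.mod_modEq r p).add_right _
    exact (h1.dvd_iff (dvd_refl p)).symm
  simp only [h]

private theorem mem_dy {P p : ℕ} (hp : p ∈ dyP P) : P < p ∧ p ≤ 2 * P ∧ 0 < P ∧ p.Prime := by
  unfold dyP at hp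
  have h := Finset.mem_filter.1 hp
  have h2 := Finset.mem_Ioc.1 h.1
  refine ⟨h2.1, h2.2, by omega, h.2⟩

private theorem card_r (p j : ℕ) (hp : 0 < p) :
    ((range p).filter (fun r => p ∣ r + j)).card = 1 := by
  have hr : ∃ r0 < p, p ∣ r0 + j := by
    rcases Nat.eq_zero_or_pos (j % p) with h | h
    · exact ⟨0, hp, by simpa using Nat.dvd_of_mod_eq_zero h⟩
    · have h1 := Nat.mod_lt j hp
      refine ⟨p - j % p, by omega, ?_⟩
      have h2 := Nat.div_add_mod j p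
      refine ⟨1 + j / p, ?_⟩
      rw [Nat.mul_add, Nat.mul_one]
      omega
  obtain ⟨r0, hr0, hd⟩ := hr
  rw [Finset.card_eq_one]
  refine ⟨r0, ?_⟩
  ext r
  rw [Finset.mem_filter, Finset.mem_range, Finset.mem_singleton]
  constructor
  · rintro ⟨h1, h2⟩
    have h3 : r + j ≡ r0 + j [MOD p] :=
      ((Nat.modEq_zero_iff_dvd).2 h2).trans ((Nat.modEq_zero_iff_dvd).2 hd).symm
    exact (Nat.ModEq.add_right_cancel' j h3).eq_of_lt_of_lt h1 hr0
  · rintro rfl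
    exact ⟨hr0, hd⟩

theorem fp_sum {P p : ℕ} (hp : p ∈ dyP P) (a : ℕ) (φ : ℕ → ℝ) :
    ∑ r ∈ range p, fp P p a φ r = 0 := by
  obtain ⟨-, -, -, hp0⟩ := mem_dy hp
  unfold fp
  rw [← Finset.mul_sum, Finset.sum_comm]
  have h : ∀ j ∈ range P, ∑ r ∈ range p,
      (((if p ∣ r + a * j then (p : ℝ) else 0) - 1) * φ j) = 0 := by
    intro j _
    rw [← Finset.sum_mul, Finset.sum_sub_distrib, Finset.sum_const, Finset.card_range,
      ← Finset.sum_filter, Finset.sum_const, card_r p (a * j) hp0.pos]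
    simp
  rw [Finset.sum_eq_zero h, mul_zero]

private theorem card_l (P p a r : ℕ) (hP : P < p) (hp : p.Prime) (ha : ¬ p ∣ a) :
    ((range P).filter (fun j => p ∣ r + a * j)).card ≤ 1 := by
  rw [Finset.card_le_one]
  intro x hx y hy
  rw [Finset.mem_filter, Finset.mem_range] at hx hy
  have h3 : r + a * x ≡ r + a * y [MOD p] :=
    ((Nat.modEq_zero_iff_dvd).2 hx.2).trans ((Nat.modEq_zero_iff_dvd).2 hy.2).symm
  have h4 : a * x ≡ a * y [MOD p] := Nat.ModEq.add_left_cancel' r h3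
  have h5 : x ≡ y [MOD p] :=
    Nat.ModEq.cancel_left_of_coprime ((Nat.Prime.coprime_iff_not_dvd hp).2 ha) h4
  exact h5.eq_of_lt_of_lt (by omega) (by omega)

theorem fp_abs {P p : ℕ} (hp : p ∈ dyP P) {a : ℕ} (ha : ¬ p ∣ a) (φ : ℕ → ℝ)
    (h0 : ∀ j, 0 ≤ φ j) (h1' : ∀ j, φ j ≤ 1) (r : ℕ) : |fp P p a φ r| ≤ 2 := by
  obtain ⟨h1, h2, h3, h4⟩ := mem_dy hp
  have hP : (0 : ℝ) < P := by exact_mod_cast h3
  have hpP : (p : ℝ) ≤ 2 * P := by exact_mod_cast h2
  have e : fp P p a φ r = (1 / (P : ℝ)) *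
      ((∑ j ∈ range P, (if p ∣ r + a * j then (p : ℝ) else 0) * φ j) - ∑ j ∈ range P, φ j) := by
    unfold fp
    rw [← Finset.sum_sub_distrib]
    congr 1
    apply Finset.sum_congr rfl
    intro j _
    ring
  have a1 : 0 ≤ ∑ j ∈ range P, (if p ∣ r + a * j then (p : ℝ) else 0) * φ j := by
    apply Finset.sum_nonneg
    intro j _
    apply mul_nonneg _ (h0 j)
    split_ifs
    · positivity
    · exact le_rfl
  have a2 : ∑ j ∈ range P, (if p ∣ r + a * j then (p : ℝ) else 0) * φ j ≤ p := by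
    calc ∑ j ∈ range P, (if p ∣ r + a * j then (p : ℝ) else 0) * φ j
        ≤ ∑ j ∈ range P, (if p ∣ r + a * j then (p : ℝ) else 0) := by
          apply Finset.sum_le_sum
          intro j _
          split_ifs
          · exact mul_le_of_le_one_right (by positivity) (h1' j)
          · rw [zero_mul]
      _ = (((range P).filter (fun j => p ∣ r + a * j)).card : ℝ) * p := by
          rw [← Finset.sum_filter, Finset.sum_const, nsmul_eq_mul]
      _ ≤ 1 * p := by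
          apply mul_le_mul_of_nonneg_right _ (by positivity)
          exact_mod_cast card_l P p a r h1 h4 ha
      _ = p := one_mul _
  have b1 : 0 ≤ ∑ j ∈ range P, φ j := Finset.sum_nonneg fun j _ => h0 j
  have b2 : ∑ j ∈ range P, φ j ≤ P := by
    calc ∑ j ∈ range P, φ j ≤ ∑ _j ∈ range P, (1 : ℝ) := Finset.sum_le_sum fun j _ => h1' j
      _ = P := by simp
  rw [e, one_div_mul_eq_div, abs_le]
  constructor
  · rw [le_div_iff₀ hP]
    linarith
  · rw [div_le_iff₀ hP]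
    linarith

theorem fp_exp {P p : ℕ} (hp : p ∈ dyP P) {a : ℕ} (ha : ¬ p ∣ a) (φ : ℕ → ℝ)
    (h0 : ∀ j, 0 ≤ φ j) (h1 : ∀ j, φ j ≤ 1) (s : ℝ) :
    ∑ r ∈ range p, Real.exp (s * fp P p a φ r) ≤ (p : ℝ) * Real.exp (2 * s ^ 2) := by
  have key : ∀ x : ℝ, |x| ≤ 2 → Real.exp (s * x) ≤
      Real.cosh (2 * s) + x * (Real.sinh (2 * s) / 2) := by
    intro x hx
    rw [abs_le] at hx
    have h := convexOn_exp.2 (Set.mem_univ (2 * s)) (Set.mem_univ (-(2 * s)))
      (show (0 : ℝ) ≤ (x + 2) / 4 by linarith) (show (0 : ℝ) ≤ (2 - x) / 4 by linarith) (by ring)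
    have e1 : ((x + 2) / 4) • (2 * s) + ((2 - x) / 4) • (-(2 * s)) = s * x := by
      simp only [smul_eq_mul]
      ring
    rw [e1] at h
    refine h.trans (le_of_eq ?_)
    rw [Real.cosh_eq, Real.sinh_eq, smul_eq_mul, smul_eq_mul]
    ring
  calc ∑ r ∈ range p, Real.exp (s * fp P p a φ r)
      ≤ ∑ r ∈ range p, (Real.cosh (2 * s) + fp P p a φ r * (Real.sinh (2 * s) / 2)) :=
        Finset.sum_le_sum fun r _ => key _ (fp_abs hp ha φ h0 h1 r)
    _ = (p : ℝ) * Real.cosh (2 * s) := by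
        rw [Finset.sum_add_distrib, ← Finset.sum_mul, fp_sum hp, Finset.sum_const,
          Finset.card_range, nsmul_eq_mul, zero_mul, add_zero]
    _ ≤ (p : ℝ) * Real.exp (2 * s ^ 2) := by
        apply mul_le_mul_of_nonneg_left _ (by positivity)
        refine (Real.cosh_le_exp_half_sq _).trans (le_of_eq ?_)
        congr 1
        ring

/-- The signed average over the primes in `(P, 2P]`. -/
noncomputable def FF (P a : ℕ) (σ : ℕ → ℝ) (φ : ℕ → ℕ → ℝ) (r : ℕ) : ℝ :=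
  (1 / ((dyP P).card : ℝ)) * ∑ p ∈ dyP P, σ p * fp P p a (φ p) r

/-- The product of the primes in `(P, 2P]`. -/
def MP (P : ℕ) : ℕ := ∏ p ∈ dyP P, p

theorem MP_ne (P : ℕ) : MP P ≠ 0 := by
  unfold MP
  refine Finset.prod_ne_zero_iff.2 fun p hp => ?_
  exact (mem_dy hp).2.2.2.ne_zero

instance (P : ℕ) : NeZero (MP P) := ⟨MP_ne P⟩

theorem hoeff (P a : ℕ) (ha : ∀ p ∈ dyP P, ¬ p ∣ a) (σ : ℕ → ℝ) (hσ : ∀ p, |σ p| ≤ 1)
    (φ : ℕ → ℕ → ℝ) (h0 : ∀ p j, 0 ≤ φ p j) (h1 : ∀ p j, φ p j ≤ 1) (t : ℝ) :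
    ∑ r ∈ range (MP P), Real.exp (t * FF P a σ φ r) ≤
      (MP P : ℝ) * Real.exp (2 * t ^ 2 / ((dyP P).card : ℝ)) := by
  set d : ℝ := ((dyP P).card : ℝ) with hd
  have hexp : ∀ r : ℕ, Real.exp (t * FF P a σ φ r) =
      ∏ p ∈ dyP P, Real.exp ((t / d * σ p) * fp P p a (φ p) (r % p)) := by
    intro r
    rw [← Real.exp_sum]
    congr 1
    unfold FF
    have h1 : ∑ p ∈ dyP P, (t / d * σ p) * fp P p a (φ p) (r % p) =
        t / d * ∑ p ∈ dyP P, σ p * fp P p a (φ p) r := by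
      rw [Finset.mul_sum]
      refine Finset.sum_congr rfl fun p _ => ?_
      rw [← fp_mod P p a (φ p) r]
      ring
    rw [h1]
    ring
  have hprime : ∀ p ∈ dyP P, Nat.Prime p := fun p hp => (mem_dy hp).2.2.2
  have h2 : ∑ r ∈ range (MP P), Real.exp (t * FF P a σ φ r) =
      ∏ p ∈ dyP P, ∑ s ∈ range p, Real.exp ((t / d * σ p) * fp P p a (φ p) s) := by
    rw [Finset.sum_congr rfl fun r _ => hexp r]
    exact MRA.crt (dyP P) hprime (fun p s => Real.exp ((t / d * σ p) * fp P p a (φ p) s))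
  rw [h2]
  have h3 : ∏ p ∈ dyP P, ∑ s ∈ range p, Real.exp ((t / d * σ p) * fp P p a (φ p) s) ≤
      ∏ p ∈ dyP P, ((p : ℝ) * Real.exp (2 * (t / d) ^ 2)) := by
    refine Finset.prod_le_prod ?_ ?_
    · intro p _
      exact Finset.sum_nonneg fun s _ => (Real.exp_pos _).le
    · intro p hp
      refine (fp_exp hp (ha p hp) (φ p) (h0 p) (h1 p) (t / d * σ p)).trans ?_
      refine mul_le_mul_of_nonneg_left (Real.exp_le_exp.2 ?_) (Nat.cast_nonneg _)
      have h4 : σ p ^ 2 ≤ 1 := by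
        have := hσ p
        rw [abs_le] at this
        nlinarith [this.1, this.2]
      have h5 : 0 ≤ (t / d) ^ 2 := sq_nonneg _
      have h6 : (t / d * σ p) ^ 2 = (t / d) ^ 2 * σ p ^ 2 := by ring
      rw [h6]
      nlinarith
  refine h3.trans (le_of_eq ?_)
  rw [Finset.prod_mul_distrib, Finset.prod_const, ← Real.exp_nat_mul]
  have h4 : (MP P : ℝ) = ∏ p ∈ dyP P, (p : ℝ) := by
    unfold MP
    push_cast
    rfl
  rw [h4]
  congr 2
  rw [← hd]
  by_cases h0 : d = 0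
  · rw [h0]; simp
  · field_simp

/-- The same with a sum over `Fin (MP P)`. -/
theorem hoeff_fin (P a : ℕ) (ha : ∀ p ∈ dyP P, ¬ p ∣ a) (σ : ℕ → ℝ) (hσ : ∀ p, |σ p| ≤ 1)
    (φ : ℕ → ℕ → ℝ) (h0 : ∀ p j, 0 ≤ φ p j) (h1 : ∀ p j, φ p j ≤ 1) (t : ℝ) :
    ∑ r : Fin (MP P), Real.exp (t * FF P a σ φ (r : ℕ)) ≤
      Real.exp (2 * t ^ 2 / ((dyP P).card : ℝ)) * (Fintype.card (Fin (MP P)) : ℝ) := by
  rw [Fintype.card_fin, mul_comm]
  rw [Fin.sum_univ_eq_sum_range (fun r => Real.exp (t * FF P a σ φ r)) (MP P)]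
  exact hoeff P a ha σ hσ φ h0 h1 t

end DGE
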