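import Pool.Agent.Helper6.DG.Sys
import Pool.Agent.Helper11.MRA.Gibbs

/-!
# DIAG part D, D-01: laws and entropies of finitely valued functions under a mean

Namespace `DGE`. `law μ f a = μ(f = a)`, `ent μ f` = Shannon entropy of `f`. Everything is exact. `gibbs` (Gibbs inequality for finite
sums) is taken from `Helper11/MRA/Gibbs.lean`.
-/

set_option autoImplicit false

namespace DGE

open Finset DG

/-- The law of a finitely valued function. -/
noncomputable def law {S : Type} (μ : Mean S) {α : Type} [DecidableEq α] (f : S → α) (a : α) : ℝ :=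
  μ.R (fun x => if f x = a then 1 else 0)

/-- The Shannon entropy of a finitely valued function. -/
noncomputable def ent {S : Type} (μ : Mean S) {α : Type} [Fintype α] [DecidableEq α]
    (f : S → α) : ℝ :=
  ∑ a : α, Real.negMulLog (law μ f a)

variable {S : Type} (μ : Mean S)

theorem law_nonneg {α : Type} [DecidableEq α] (f : S → α) (a : α) : 0 ≤ law μ f a :=
  μ.R_nonneg _ (fun x => by split_ifs <;> norm_num) (C := 1) (fun x => by split_ifs <;> norm_num)

theorem law_le_one {α : Type} [DecidableEq α] (f : S → α) (a : α) : law μ f a ≤ 1 :=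
  μ.R_le_of_le _ (fun x => by split_ifs <;> norm_num) (C := 1)
    (fun x => by split_ifs <;> norm_num)

theorem R_eq {α : Type} [Fintype α] [DecidableEq α] (f : S → α) (F : α → ℝ) :
    μ.R (fun x => F (f x)) = ∑ a : α, law μ f a * F a := by
  have h : (fun x => F (f x)) = fun x => ∑ a : α, F a * (if f x = a then (1 : ℝ) else 0) := by
    funext x
    simp
  rw [h, μ.R_sum]
  refine Finset.sum_congr rfl fun a _ => ?_
  rw [μ.R_const_mul, mul_comm]
  rfl

theorem law_sum {α : Type} [Fintype α] [DecidableEq α] (f : S → α) : ∑ a : α, law μ f a = 1 := by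
  have h := R_eq μ f (fun _ => (1 : ℝ))
  simp only [mul_one] at h
  rw [← h]
  exact μ.R_const 1

theorem law_mono {α β : Type} [DecidableEq α] [DecidableEq β] (f : S → α) (g : S → β)
    (a : α) (b : β) (h : ∀ x, f x = a → g x = b) : law μ f a ≤ law μ g b := by
  refine μ.R_mono _ _ (fun x => ?_) (C := 1) (fun x => ?_) (fun x => ?_)
  · by_cases h1 : f x = a
    · rw [if_pos h1, if_pos (h x h1)]
    · rw [if_neg h1]
      split_ifs <;> norm_num
  · split_ifs <;> norm_num
  · split_ifs <;> norm_num

theorem law_congr {α β : Type} [DecidableEq α] [DecidableEq β] (f : S → α) (g : S → β)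
    (a : α) (b : β) (h : ∀ x, f x = a ↔ g x = b) : law μ f a = law μ g b :=
  le_antisymm (law_mono μ f g a b fun x => (h x).1) (law_mono μ g f b a fun x => (h x).2)

theorem law_fst {α β : Type} [Fintype β] [DecidableEq α] [DecidableEq β] (f : S → α)
    (g : S → β) (a : α) : ∑ b : β, law μ (fun x => (f x, g x)) (a, b) = law μ f a := by
  unfold law
  rw [← μ.R_sum]
  congr 1
  funext x
  by_cases h : f x = a
  · simp [h]
  · simp [h]

theorem law_snd {α β : Type} [Fintype α] [DecidableEq α] [DecidableEq β] (f : S → α)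
    (g : S → β) (b : β) : ∑ a : α, law μ (fun x => (f x, g x)) (a, b) = law μ g b := by
  unfold law
  rw [← μ.R_sum]
  congr 1
  funext x
  by_cases h : g x = b
  · simp [h]
  · simp [h]

theorem ent_nonneg {α : Type} [Fintype α] [DecidableEq α] (f : S → α) : 0 ≤ ent μ f := by
  unfold ent
  exact Finset.sum_nonneg fun a _ => Real.negMulLog_nonneg (law_nonneg μ f a) (law_le_one μ f a)

theorem ent_le_card {α : Type} [Fintype α] [DecidableEq α] [Nonempty α] (f : S → α) :
    ent μ f ≤ Real.log (Fintype.card α) := by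
  have hc : (0 : ℝ) < Fintype.card α := by exact_mod_cast Fintype.card_pos
  have h := MRA.gibbs (law μ f) (fun _ => 1 / (Fintype.card α : ℝ)) (law_nonneg μ f)
    (fun _ => by positivity) (fun i h0 => absurd h0 (by positivity)) (by
      rw [law_sum μ]
      simp only [Finset.sum_const, Finset.card_univ, nsmul_eq_mul]
      rw [mul_one_div, div_self hc.ne'])
  unfold ent
  refine h.trans (le_of_eq ?_)
  rw [← Finset.sum_mul, law_sum μ, one_mul, one_div, Real.log_inv, neg_neg]

private theorem factor_aux {α β : Type} [Fintype α] [Fintype β] [DecidableEq α] [DecidableEq β]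
    (g : S → β) (φ : β → α) : ent μ (fun x => φ (g x)) ≤ ent μ g := by
  have hlaw : ∀ b, law μ g b ≤ law μ (fun x => φ (g x)) (φ b) := fun b =>
    law_mono μ _ _ _ _ fun x hx => by rw [hx]
  have h1 : ent μ (fun x => φ (g x)) =
      ∑ b, law μ g b * -Real.log (law μ (fun x => φ (g x)) (φ b)) := by
    rw [← R_eq μ g (fun b => -Real.log (law μ (fun x => φ (g x)) (φ b))),
      R_eq μ (fun x => φ (g x)) (fun a => -Real.log (law μ (fun x => φ (g x)) a))]
    unfold ent
    refine Finset.sum_congr rfl fun a _ => ?_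
    rw [Real.negMulLog]
    ring
  rw [h1]
  unfold ent
  refine Finset.sum_le_sum fun b _ => ?_
  rw [Real.negMulLog]
  have h0 := law_nonneg μ g b
  rcases h0.eq_or_lt with h | h
  · rw [← h]; simp
  · have := Real.log_le_log h (hlaw b)
    nlinarith

/-- If `f` is determined by `g` then `ent f ≤ ent g`. -/
theorem ent_factor {α β : Type} [Fintype α] [Fintype β] [DecidableEq α] [DecidableEq β]
    [Nonempty α] (f : S → α) (g : S → β) (h : ∀ x y, g x = g y → f x = f y) :
    ent μ f ≤ ent μ g := by
  classical
  let φ : β → α := fun b => if hb : ∃ x, g x = b then f hb.choose else Classical.arbitrary α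
  have hφ : (fun x => φ (g x)) = f := by
    funext x
    have hb : ∃ y, g y = g x := ⟨x, rfl⟩
    have h1 : φ (g x) = f hb.choose := dif_pos hb
    rw [h1]
    exact h _ _ hb.choose_spec
  have h2 := factor_aux μ g φ
  rw [hφ] at h2
  exact h2

theorem R_inv (X : Sys) (n : ℤ) (u : X.S → ℝ) {C : ℝ} (hu : ∀ x, |u x| ≤ C) :
    X.μ.R (fun x => u ((X.T ^ n) x)) = X.μ.R u := by
  unfold Mean.R
  rw [X.inv_zpow n (fun x => (u x : ℂ)) (Bd.ofReal_of_bdd hu)]

theorem law_shift (X : Sys) {α : Type} [DecidableEq α] (f : X.S → α) (a : α) (n : ℤ) :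
    law X.μ (fun x => f ((X.T ^ n) x)) a = law X.μ f a := by
  unfold law
  exact R_inv X n (fun x => if f x = a then (1 : ℝ) else 0) (C := 1)
    (fun x => by split_ifs <;> norm_num)

theorem ent_shift (X : Sys) {α : Type} [Fintype α] [DecidableEq α] (f : X.S → α) (n : ℤ) :
    ent X.μ (fun x => f ((X.T ^ n) x)) = ent X.μ f := by
  unfold ent
  exact Finset.sum_congr rfl fun a _ => by rw [law_shift X f a n]

end DGE
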