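import Pool.Agent.Helper31.DG.Decr

/-!
# DIAG part D, D-08: from invariant sets to invariant complex weights; the theorem `DGE.ent_thm : DG.Ent`

A real `T`-invariant `c` with values in `[-1, 1]` is within `1/m` of `-1 + (1/m) ∑_{i < 2m} 1_{c > -1 + i/m}` (up to one more step).
-/

set_option autoImplicit false

namespace DGE

open Finset DG MRP

/-- `R (p 1_{p ∣ pos}) = 1`. -/
theorem R_dvd (X : Sys) (pos : X.S → ℤ) (hpos : ∀ x, pos (X.T x) = pos x + 1) (p : ℕ)
    (hp : 0 < p) : X.μ.R (fun x => if (p : ℤ) ∣ pos x then (p : ℝ) else 0) = 1 := by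
  haveI : NeZero p := ⟨hp.ne'⟩
  have h0 : (0 : ℤ) < p := by exact_mod_cast hp
  have h1 := law_res X pos hpos p 0
  unfold law at h1
  have h2 : (fun x => if (p : ℤ) ∣ pos x then (p : ℝ) else 0) =
      fun x => (p : ℝ) * (if res pos p x = 0 then (1 : ℝ) else 0) := by
    funext x
    have h3 : (res pos p x = 0) ↔ (p : ℤ) ∣ pos x := by
      rw [Fin.ext_iff, Int.dvd_iff_emod_eq_zero]
      have e2 := Int.emod_nonneg (pos x) h0.ne'
      simp only [res, Fin.val_zero]
      omega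
    by_cases h4 : (p : ℤ) ∣ pos x
    · rw [if_pos h4, if_pos (h3.2 h4), mul_one]
    · rw [if_neg h4, if_neg (fun h => h4 (h3.1 h)), mul_zero]
  rw [h2, X.μ.R_const_mul, h1]
  have hpr : (p : ℝ) ≠ 0 := by exact_mod_cast hp.ne'
  field_simp

theorem R_abs_Psi (X : Sys) (pos : X.S → ℤ) (hpos : ∀ x, pos (X.T x) = pos x + 1) (k : ℕ)
    (f : ℕ → X.S → ℝ) (hf : ∀ i x, f i x = 0 ∨ f i x = 1) (a p : ℕ) (hp : 0 < p) :
    X.μ.R (fun x => |Psi X pos k f a p x|) ≤ 2 := by
  have hpr : (0 : ℝ) ≤ p := Nat.cast_nonneg p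
  have h1 : X.μ.R (fun x => |Psi X pos k f a p x|) ≤
      X.μ.R (fun x => (if (p : ℤ) ∣ pos x then (p : ℝ) else 0) + 1) := by
    refine X.μ.R_mono _ _ (fun x => ?_) (C := (p : ℝ) + 1) (fun x => ?_) (fun x => ?_)
    · unfold Psi
      rw [abs_mul]
      have h1 : |∏ i ∈ range (k + 1), f i ((X.T ^ ((i : ℤ) * (a * p))) x)| ≤ 1 := by
        rw [Finset.abs_prod]
        refine Finset.prod_le_one (fun i _ => abs_nonneg _) (fun i _ => ?_)
        rcases hf i ((X.T ^ ((i : ℤ) * (a * p))) x) with h | h <;> simp [h]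
      have h2 : |(if (p : ℤ) ∣ pos x then (p : ℝ) else 0) - 1| ≤
          (if (p : ℤ) ∣ pos x then (p : ℝ) else 0) + 1 := by
        split_ifs
        · rw [abs_le]; constructor <;> linarith
        · rw [abs_le]; constructor <;> linarith
      have h3 : (0 : ℝ) ≤ (if (p : ℤ) ∣ pos x then (p : ℝ) else 0) + 1 := by
        split_ifs <;> linarith
      calc _ ≤ ((if (p : ℤ) ∣ pos x then (p : ℝ) else 0) + 1) * 1 :=
            mul_le_mul h2 h1 (abs_nonneg _) h3
        _ = _ := mul_one _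
    · rw [abs_abs]
      exact Psi_abs X pos k f hf a p x
    · split_ifs
      · rw [abs_of_nonneg (by positivity)]
      · rw [zero_add, abs_one]; linarith
  rw [X.μ.R_add, R_dvd X pos hpos p hp, X.μ.R_const] at h1
  linarith

/-- quantisation of a real number in `[-1, 1]` -/
theorem quant (m : ℕ) (hm : 1 ≤ m) (c : ℝ) (h1 : -1 ≤ c) (h2 : c ≤ 1) :
    |c - (-1 + (1 / (m : ℝ)) * ∑ i ∈ range (2 * m), (if (-1 + (i : ℝ) / m) < c then (1 : ℝ) else 0))| ≤
      1 / m := by
  have hmr : (0 : ℝ) < m := by exact_mod_cast hm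
  set u : ℝ := (c + 1) * m with hu
  have hu0 : 0 ≤ u := mul_nonneg (by linarith) hmr.le
  have hu2 : u ≤ 2 * m := by
    rw [hu]
    exact mul_le_mul_of_nonneg_right (by linarith) hmr.le
  have hiff : ∀ i : ℕ, (-1 + (i : ℝ) / m) < c ↔ (i : ℝ) < u := by
    intro i
    rw [hu, ← sub_pos, ← sub_pos (b := (i : ℝ))]
    have e : (c + 1) * m - i = m * (c - (-1 + (i : ℝ) / m)) := by
      field_simp
      ring
    rw [e]
    constructor
    · intro h; positivity
    · intro h; exact (mul_pos_iff_of_pos_left hmr).1 h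
  have hsum : ∑ i ∈ range (2 * m), (if (-1 + (i : ℝ) / m) < c then (1 : ℝ) else 0) =
      (min (2 * m) ⌈u⌉₊ : ℕ) := by
    rw [Finset.sum_congr rfl fun i _ => by rw [if_congr (hiff i) rfl rfl], ← Finset.sum_filter,
      Finset.sum_const, nsmul_eq_mul, mul_one]
    congr 1
    rw [← Finset.card_range (min (2 * m) ⌈u⌉₊)]
    congr 1
    ext i
    rw [Finset.mem_filter, Finset.mem_range, Finset.mem_range, lt_min_iff]
    refine and_congr_right fun _ => ?_
    exact Nat.lt_ceil.symm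
  have hceil : ⌈u⌉₊ ≤ 2 * m := by
    rw [Nat.ceil_le]
    push_cast
    exact hu2
  rw [hsum, min_eq_right hceil]
  have e1 := Nat.le_ceil u
  have e2 := Nat.ceil_lt_add_one hu0
  have e3 : c - (-1 + 1 / (m : ℝ) * (⌈u⌉₊ : ℕ)) = (u - ⌈u⌉₊) / m := by
    rw [hu]
    field_simp
    ring
  rw [e3, abs_div, abs_of_pos hmr]
  refine div_le_div_of_nonneg_right ?_ hmr.le
  rw [abs_le]
  constructor <;> linarith

/-- real invariant weights -/
theorem real_bd (X : Sys) (pos : X.S → ℤ) (hpos : ∀ x, pos (X.T x) = pos x + 1) (k : ℕ)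
    (f : ℕ → X.S → ℝ) (hf : ∀ i x, f i x = 0 ∨ f i x = 1) (a j : ℕ) (ε : ℝ) (m : ℕ) (hm : 1 ≤ m)
    (hJ : ∀ J : X.S → Bool, (∀ x, J (X.T x) = J x) →
      (1 / ((dyP (2 ^ j)).card : ℝ)) * ∑ p ∈ dyP (2 ^ j),
        |X.μ.R (fun x => (if J x = true then (1 : ℝ) else 0) * Psi X pos k f a p x)| ≤ ε)
    (c : X.S → ℝ) (hc : ∀ x, c (X.T x) = c x) (hc1 : ∀ x, -1 ≤ c x) (hc2 : ∀ x, c x ≤ 1) :
    (1 / ((dyP (2 ^ j)).card : ℝ)) * ∑ p ∈ dyP (2 ^ j),
      |X.μ.R (fun x => c x * Psi X pos k f a p x)| ≤ 3 * ε + 2 / m := by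
  classical
  have hmr : (0 : ℝ) < m := by exact_mod_cast hm
  set D : ℝ := ((dyP (2 ^ j)).card : ℝ) with hD
  have hD0 : 0 ≤ D := Nat.cast_nonneg _
  set Ji : ℕ → X.S → Bool := fun i x => decide ((-1 + (i : ℝ) / m) < c x) with hJi
  have hJiT : ∀ i x, Ji i (X.T x) = Ji i x := fun i x => by simp only [hJi, hc]
  set Q : (X.S → Bool) → ℕ → ℝ := fun J p =>
    X.μ.R (fun x => (if J x = true then (1 : ℝ) else 0) * Psi X pos k f a p x) with hQ
  have hterm : ∀ p ∈ dyP (2 ^ j), |X.μ.R (fun x => c x * Psi X pos k f a p x)| ≤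
      |Q (fun _ => true) p| + (1 / (m : ℝ)) * ∑ i ∈ range (2 * m), |Q (Ji i) p| + 2 / m := by
    intro p hp
    have hp0 : 0 < p := (Finset.mem_filter.1 hp).2.pos
    set q : X.S → ℝ := fun x => -1 + (1 / (m : ℝ)) *
      ∑ i ∈ range (2 * m), (if (-1 + (i : ℝ) / m) < c x then (1 : ℝ) else 0) with hq
    have hqc : ∀ x, |c x - q x| ≤ 1 / m := fun x => quant m hm (c x) (hc1 x) (hc2 x)
    have e1 : (fun x => c x * Psi X pos k f a p x) = fun x =>
        (c x - q x) * Psi X pos k f a p x + q x * Psi X pos k f a p x := by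
      funext x
      ring
    have e2 : X.μ.R (fun x => q x * Psi X pos k f a p x) =
        -Q (fun _ => true) p + (1 / (m : ℝ)) * ∑ i ∈ range (2 * m), Q (Ji i) p := by
      have e3 : (fun x => q x * Psi X pos k f a p x) = fun x =>
          (-1) * ((if (fun _ : X.S => true) x = true then (1 : ℝ) else 0) * Psi X pos k f a p x) +
          (1 / (m : ℝ)) * ∑ i ∈ range (2 * m),
            ((if Ji i x = true then (1 : ℝ) else 0) * Psi X pos k f a p x) := by
        funext x
        simp only [hq, hJi, decide_eq_true_eq, if_true]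
        rw [← Finset.sum_mul]
        ring
      rw [e3, X.μ.R_add,
        X.μ.R_const_mul (-1) (fun x => (if (fun _ : X.S => true) x = true then (1 : ℝ) else 0) *
          Psi X pos k f a p x),
        X.μ.R_const_mul (1 / (m : ℝ)) (fun x => ∑ i ∈ range (2 * m),
            ((if Ji i x = true then (1 : ℝ) else 0) * Psi X pos k f a p x)), X.μ.R_sum]
      simp only [hQ]
      ring
    have hPs := Psi_abs X pos k f hf a p
    have e4 : |X.μ.R (fun x => (c x - q x) * Psi X pos k f a p x)| ≤ 2 / m := by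
      have h1 : X.μ.R (fun x => (c x - q x) * Psi X pos k f a p x) ≤
          X.μ.R (fun x => (1 / (m : ℝ)) * |Psi X pos k f a p x|) := by
        refine X.μ.R_mono _ _ (fun x => ?_) (C := (1 / (m : ℝ)) * (p + 1)) (fun x => ?_)
          (fun x => ?_)
        · refine (le_abs_self _).trans ?_
          rw [abs_mul]
          exact mul_le_mul_of_nonneg_right (hqc x) (abs_nonneg _)
        · rw [abs_mul]
          exact mul_le_mul (hqc x) (hPs x) (abs_nonneg _) (by positivity)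
        · rw [abs_mul, abs_abs, abs_of_nonneg (by positivity : (0 : ℝ) ≤ 1 / (m : ℝ))]
          exact mul_le_mul_of_nonneg_left (hPs x) (by positivity)
      have h2 : X.μ.R (fun x => (-1) * ((c x - q x) * Psi X pos k f a p x)) ≤
          X.μ.R (fun x => (1 / (m : ℝ)) * |Psi X pos k f a p x|) := by
        refine X.μ.R_mono _ _ (fun x => ?_) (C := (1 / (m : ℝ)) * (p + 1)) (fun x => ?_)
          (fun x => ?_)
        · refine (le_abs_self _).trans ?_
          rw [abs_mul, abs_neg, abs_one, one_mul, abs_mul]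
          exact mul_le_mul_of_nonneg_right (hqc x) (abs_nonneg _)
        · rw [abs_mul, abs_neg, abs_one, one_mul, abs_mul]
          exact mul_le_mul (hqc x) (hPs x) (abs_nonneg _) (by positivity)
        · rw [abs_mul, abs_abs, abs_of_nonneg (by positivity : (0 : ℝ) ≤ 1 / (m : ℝ))]
          exact mul_le_mul_of_nonneg_left (hPs x) (by positivity)
      rw [X.μ.R_const_mul] at h1 h2
      rw [X.μ.R_const_mul] at h2
      have h3 := R_abs_Psi X pos hpos k f hf a p hp0
      have h4 : (1 / (m : ℝ)) * X.μ.R (fun x => |Psi X pos k f a p x|) ≤ (1 / (m : ℝ)) * 2 :=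
        mul_le_mul_of_nonneg_left h3 (by positivity)
      have h5 : (1 / (m : ℝ)) * 2 = 2 / m := by ring
      rw [abs_le]
      constructor <;> linarith
    rw [e1, X.μ.R_add, e2]
    refine (abs_add_le _ _).trans ?_
    have e5 : |-Q (fun _ => true) p + (1 / (m : ℝ)) * ∑ i ∈ range (2 * m), Q (Ji i) p| ≤
        |Q (fun _ => true) p| + (1 / (m : ℝ)) * ∑ i ∈ range (2 * m), |Q (Ji i) p| := by
      refine (abs_add_le _ _).trans ?_
      rw [abs_neg, abs_mul, abs_of_nonneg (by positivity : (0 : ℝ) ≤ 1 / (m : ℝ))]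
      have := Finset.abs_sum_le_sum_abs (fun i => Q (Ji i) p) (range (2 * m))
      have h2 := mul_le_mul_of_nonneg_left this (by positivity : (0 : ℝ) ≤ 1 / (m : ℝ))
      linarith
    linarith
  have h1 := Finset.sum_le_sum hterm
  have h2 : (1 / D) * ∑ p ∈ dyP (2 ^ j), |X.μ.R (fun x => c x * Psi X pos k f a p x)| ≤
      (1 / D) * ∑ p ∈ dyP (2 ^ j), (|Q (fun _ => true) p| +
        (1 / (m : ℝ)) * ∑ i ∈ range (2 * m), |Q (Ji i) p| + 2 / m) :=
    mul_le_mul_of_nonneg_left h1 (div_nonneg zero_le_one hD0)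
  refine h2.trans ?_
  rw [Finset.sum_add_distrib, Finset.sum_add_distrib, Finset.sum_const, nsmul_eq_mul,
    ← Finset.mul_sum, Finset.sum_comm, mul_add, mul_add]
  have a1 := hJ (fun _ => true) (fun _ => rfl)
  have a2 : (1 / D) * ((1 / (m : ℝ)) * ∑ i ∈ range (2 * m), ∑ p ∈ dyP (2 ^ j), |Q (Ji i) p|) ≤
      2 * ε := by
    have e1 : (1 / D) * ((1 / (m : ℝ)) * ∑ i ∈ range (2 * m), ∑ p ∈ dyP (2 ^ j), |Q (Ji i) p|) =
        (1 / (m : ℝ)) * ∑ i ∈ range (2 * m), (1 / D) * ∑ p ∈ dyP (2 ^ j), |Q (Ji i) p| := by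
      rw [← Finset.mul_sum]
      ring
    rw [e1]
    have e2 : ∑ i ∈ range (2 * m), (1 / D) * ∑ p ∈ dyP (2 ^ j), |Q (Ji i) p| ≤
        ∑ _i ∈ range (2 * m), ε := Finset.sum_le_sum fun i _ => hJ (Ji i) (hJiT i)
    rw [Finset.sum_const, card_range, nsmul_eq_mul] at e2
    calc (1 / (m : ℝ)) * ∑ i ∈ range (2 * m), (1 / D) * ∑ p ∈ dyP (2 ^ j), |Q (Ji i) p|
        ≤ (1 / (m : ℝ)) * (((2 * m : ℕ) : ℝ) * ε) :=
          mul_le_mul_of_nonneg_left e2 (by positivity)
      _ = 2 * ε := by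
          push_cast
          field_simp
  have a3 : (1 / D) * (D * (2 / m)) ≤ 2 / m := by
    by_cases h0 : D = 0
    · rw [h0, zero_mul, mul_zero]; positivity
    · have : (1 / D) * (D * (2 / m)) = 2 / m := by
        field_simp
      exact this.le
  have a1' : (1 / D) * ∑ p ∈ dyP (2 ^ j), |Q (fun _ => true) p| ≤ ε := a1
  linarith

/-- Part D of the project DIAG. -/
theorem ent_thm : Ent := by
  intro X pos hpos k f hf a ha ε hε
  have hsf := bool_sf X pos hpos k f hf a ha (ε / 12) (by positivity)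
  obtain ⟨m, hm⟩ := exists_nat_ge (8 / ε)
  have hm1 : 1 ≤ m + 1 := Nat.succ_le_succ (Nat.zero_le m)
  have hmr : (0 : ℝ) < ((m + 1 : ℕ) : ℝ) := by positivity
  refine Summable.of_nonneg_of_le (fun j => ?_) (fun j => ?_) hsf
  · refine Set.indicator_nonneg (fun j _ => ?_) j
    exact (wt_pos j).le
  · refine Set.indicator_le_indicator_of_subset ?_ (fun j => (wt_pos j).le) j
    intro j hj hgood
    apply hj
    have hgood' : ∀ J : X.S → Bool, (∀ x, J (X.T x) = J x) →
      (1 / ((dyP (2 ^ j)).card : ℝ)) * ∑ p ∈ dyP (2 ^ j),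
        |X.μ.R (fun x => (if J x = true then (1 : ℝ) else 0) * Psi X pos k f a p x)| ≤
        ε / 12 := hgood
    show ∀ C : X.S → ℂ, (∀ x, ‖C x‖ ≤ 1) → TInv X C →
      (1 / ((dy j).card : ℝ)) * ∑ p ∈ dy j, ‖X.μ.E (fun x => C x *
      ((if (p : ℤ) ∣ pos x then (p : ℂ) else 0) - 1) *
        ∏ i ∈ range (k + 1), ((f i ((X.T ^ ((i : ℤ) * (a * p))) x) : ℝ) : ℂ))‖ ≤ ε
    intro C hC hCT
    have hdy : dy j = dyP (2 ^ j) := by
      unfold dy dyP
      rw [pow_succ']
    rw [hdy]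
    have hre := real_bd X pos hpos k f hf a j (ε / 12) (m + 1) hm1 hgood' (fun x => (C x).re)
      (fun x => by rw [hCT x]) (fun x => (abs_le.1 ((Complex.abs_re_le_norm _).trans (hC x))).1)
      (fun x => (abs_le.1 ((Complex.abs_re_le_norm _).trans (hC x))).2)
    have him := real_bd X pos hpos k f hf a j (ε / 12) (m + 1) hm1 hgood' (fun x => (C x).im)
      (fun x => by rw [hCT x]) (fun x => (abs_le.1 ((Complex.abs_im_le_norm _).trans (hC x))).1)
      (fun x => (abs_le.1 ((Complex.abs_im_le_norm _).trans (hC x))).2)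
    have hp : ∀ p ∈ dyP (2 ^ j), ‖X.μ.E (fun x => C x *
      ((if (p : ℤ) ∣ pos x then (p : ℂ) else 0) - 1) *
        ∏ i ∈ range (k + 1), ((f i ((X.T ^ ((i : ℤ) * (a * p))) x) : ℝ) : ℂ))‖ ≤
        |X.μ.R (fun x => (C x).re * Psi X pos k f a p x)| +
          |X.μ.R (fun x => (C x).im * Psi X pos k f a p x)| := by
      intro p _
      have e1 : (fun x => C x * ((if (p : ℤ) ∣ pos x then (p : ℂ) else 0) - 1) *
          ∏ i ∈ range (k + 1), ((f i ((X.T ^ ((i : ℤ) * (a * p))) x) : ℝ) : ℂ)) =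
          fun x => C x * ((Psi X pos k f a p x : ℝ) : ℂ) := by
        funext x
        unfold Psi
        rw [mul_assoc]
        congr 1
        push_cast
        congr 1
        congr 1
        split_ifs <;> simp
      rw [e1]
      have hbd : Bd (fun x => C x * ((Psi X pos k f a p x : ℝ) : ℂ)) :=
        Bd.mul ⟨1, hC⟩ (Bd.ofReal_of_bdd (Psi_abs X pos k f hf a p))
      have e2 : (X.μ.E (fun x => C x * ((Psi X pos k f a p x : ℝ) : ℂ))).re =
          X.μ.R (fun x => (C x).re * Psi X pos k f a p x) := by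
        rw [X.μ.re_E _ hbd]
        congr 1
        funext x
        rw [Complex.re_mul_ofReal]
      have e3 : (X.μ.E (fun x => C x * ((Psi X pos k f a p x : ℝ) : ℂ))).im =
          X.μ.R (fun x => (C x).im * Psi X pos k f a p x) := by
        rw [X.μ.im_E _ hbd]
        congr 1
        funext x
        rw [Complex.im_mul_ofReal]
      rw [← e2, ← e3]
      exact Complex.norm_le_abs_re_add_abs_im _
    have hsum := Finset.sum_le_sum hp
    rw [Finset.sum_add_distrib] at hsum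
    have hD0 : (0 : ℝ) ≤ 1 / ((dyP (2 ^ j)).card : ℝ) := by positivity
    have hfin := mul_le_mul_of_nonneg_left hsum hD0
    rw [mul_add] at hfin
    have h2m : 2 / (((m + 1 : ℕ)) : ℝ) ≤ ε / 4 := by
      rw [div_le_div_iff₀ hmr (by norm_num)]
      have : 8 / ε ≤ ((m + 1 : ℕ) : ℝ) := by
        push_cast
        linarith
      rw [div_le_iff₀ hε] at this
      linarith
    linarith

end DGE
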